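import Pool.Agent.Run7.h383.PK.Good

/-!
Integers all of whose orders at large prime numbers are divisible by `M` (helper file).
-/

set_option autoImplicit false

namespace Run7.h383.PK

open Nat

theorem GoodAt.anti {P₀ P₁ M : ℕ} (h : P₀ ≤ P₁) {z : ℤ} (hz : GoodAt P₁ M z) : GoodAt P₀ M z := by
  obtain ⟨p, k, h1, h2, h3⟩ := hz
  exact ⟨p, k, h1, lt_of_le_of_lt h h2, h3⟩

/-- The finitely many coefficients. -/
noncomputable def coefs (P₀ M : ℕ) : Finset ℤ :=
  (Finset.Icc (-((P₀ ! ^ M : ℕ) : ℤ)) ((P₀ ! ^ M : ℕ) : ℤ)).filter (· ≠ 0)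

theorem mem_coefs {P₀ M : ℕ} {c : ℤ} (hc : c ≠ 0) (h : c.natAbs ∣ P₀ ! ^ M) : c ∈ coefs P₀ M := by
  rw [coefs, Finset.mem_filter, Finset.mem_Icc]
  have h1 : c.natAbs ≤ P₀ ! ^ M := Nat.le_of_dvd (by positivity) h
  refine ⟨?_, hc⟩
  constructor <;> omega

theorem power_aux {P₀ M : ℕ} (hM : 2 ≤ M) : ∀ n : ℕ, ∀ z : ℤ, z.natAbs = n → z ≠ 0 →
    ¬ GoodAt P₀ M z → ∃ c ∈ coefs P₀ M, ∃ y : ℤ, z = c * y ^ M := by
  intro n
  induction n using Nat.strong_induction_on with
  | _ n ih =>
    intro z hzn hz hbad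
    by_cases hex : ∃ p : ℕ, p.Prime ∧ (p : ℤ) ^ M ∣ z
    · obtain ⟨p, hp, z', hz'⟩ := hex
      have hz'0 : z' ≠ 0 := by
        rintro rfl
        exact hz (by rw [hz', mul_zero])
      have hp0 : (p : ℤ) ≠ 0 := by exact_mod_cast hp.ne_zero
      have hlt : z'.natAbs < n := by
        rw [← hzn, hz', Int.natAbs_mul, Int.natAbs_pow, Int.natAbs_natCast]
        have h1 : 1 < p ^ M := Nat.one_lt_pow (by omega) hp.one_lt
        have h2 : 0 < z'.natAbs := Int.natAbs_pos.2 hz'0
        nlinarith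
      have hbad' : ¬ GoodAt P₀ M z' := by
        rintro ⟨p', k, hp', hP, hk, h1, h2⟩
        by_cases hpp : p' = p
        · subst hpp
          refine hbad ⟨p', M + k, hp', hP, fun h => hk ((Nat.dvd_add_right (dvd_refl M)).1 h),
            ?_, fun h => h2 ?_⟩
          · rw [hz', pow_add]
            exact mul_dvd_mul_left _ h1
          · rw [hz', add_assoc, pow_add] at h
            exact (mul_dvd_mul_iff_left (pow_ne_zero M hp0)).1 h
        · have hcop : IsCoprime ((p' : ℤ) ^ (k + 1)) ((p : ℤ) ^ M) := by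
            apply IsCoprime.pow
            rw [Nat.isCoprime_iff_coprime]
            exact (Nat.coprime_primes hp' hp).2 hpp
          refine hbad ⟨p', k, hp', hP, hk, ?_, fun h => h2 ?_⟩
          · rw [hz']
            exact h1.mul_left _
          · rw [hz'] at h
            exact hcop.dvd_of_dvd_mul_left h
      obtain ⟨c, hc, y, hy⟩ := ih _ hlt z' rfl hz'0 hbad'
      exact ⟨c, hc, p * y, by rw [hz', hy]; ring⟩
    · push Not at hex
      refine ⟨z, mem_coefs hz ?_, 1, by rw [one_pow, mul_one]⟩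
      have hzn0 : z.natAbs ≠ 0 := Int.natAbs_ne_zero.2 hz
      have hfac : P₀ ! ^ M ≠ 0 := by positivity
      rw [← Nat.factorization_prime_le_iff_dvd hzn0 hfac]
      intro p hp
      by_cases hk : z.natAbs.factorization p = 0
      · rw [hk]
        exact Nat.zero_le _
      · have h1 : p ^ z.natAbs.factorization p ∣ z.natAbs := Nat.ordProj_dvd _ _
        have h2 : ¬ p ^ (z.natAbs.factorization p + 1) ∣ z.natAbs :=
          Nat.pow_succ_factorization_not_dvd hzn0 hp
        have hlt : z.natAbs.factorization p < M := by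
          by_contra hge
          push Not at hge
          apply hex p hp
          have h3 : p ^ M ∣ z.natAbs := (pow_dvd_pow p hge).trans h1
          have h4 : ((p ^ M : ℕ) : ℤ) ∣ z := Int.natCast_dvd.2 h3
          exact_mod_cast h4
        have hle : p ≤ P₀ := by
          by_contra hgt
          push Not at hgt
          refine hbad ⟨p, z.natAbs.factorization p, hp, hgt, fun h => ?_, ?_, fun h => ?_⟩
          · exact absurd (Nat.le_of_dvd (Nat.pos_of_ne_zero hk) h) (by omega)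
          · have h3 : ((p ^ z.natAbs.factorization p : ℕ) : ℤ) ∣ z := Int.natCast_dvd.2 h1
            exact_mod_cast h3
          · apply h2
            have h3 : ((p ^ (z.natAbs.factorization p + 1) : ℕ) : ℤ) ∣ z := by exact_mod_cast h
            exact Int.natCast_dvd.1 h3
        have h3 : 1 ≤ (P₀ !).factorization p :=
          (hp.dvd_iff_one_le_factorization (Nat.factorial_ne_zero _)).1
            ((hp.dvd_factorial).2 hle)
        rw [Nat.factorization_pow, Finsupp.smul_apply, smul_eq_mul]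
        nlinarith

/-- An integer none of whose orders at the primes above `P₀` is prime to `M` lies in one of finitely
many classes of powers. -/
theorem power_class {P₀ M : ℕ} (hM : 2 ≤ M) (z : ℤ) (hbad : ¬ GoodAt P₀ M z) :
    ∃ c ∈ coefs P₀ M, ∃ y : ℤ, z = c * y ^ M := by
  by_cases hz : z = 0
  · refine ⟨1, mem_coefs one_ne_zero (by simp), 0, ?_⟩
    rw [hz, zero_pow (by omega), mul_zero]
  · exact power_aux hM _ z rfl hz hbad

/-- The number of the integers `u` in a short interval in the classes. -/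
theorem count_classes (D : Finset ℚ) (M : ℕ) (hM : 2 ≤ M) (𝒞 : Finset ℤ) (h0 : ∀ c ∈ 𝒞, c ≠ 0) :
    ∃ C : ℝ, ∀ B : ℕ, 1 ≤ B → ∀ v : ℕ, v ≤ B → ∀ E : Set ℤ,
      (∀ u ∈ E, |u| ≤ B ∧ ∃ α ∈ D, ∃ c ∈ 𝒞, ∃ y : ℤ, u * α.den - α.num * v = c * y ^ M) →
      (E.ncard : ℝ) ≤ C * (B : ℝ) ^ ((1 : ℝ) / M) := by
  classical
  set A : ℕ := ∑ α ∈ D, (α.den + α.num.natAbs) with hA
  have hM0 : (M : ℝ) ≠ 0 := by exact_mod_cast (by omega : M ≠ 0)
  refine ⟨(D.card * 𝒞.card : ℕ) * (2 * (A : ℝ) ^ ((1 : ℝ) / M) + 1), fun B hB v hv E hE => ?_⟩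
  set R : ℝ := ((A : ℝ) * B) ^ ((1 : ℝ) / M) with hR
  have hR0 : 0 ≤ R := by positivity
  set L : ℤ := ((⌊R⌋₊ : ℕ) : ℤ) with hL
  have hsub : E ⊆ (((D ×ˢ 𝒞) ×ˢ Finset.Icc (-L) L).image fun x : (ℚ × ℤ) × ℤ =>
      (x.1.2 * x.2 ^ M + x.1.1.num * v) / (x.1.1.den : ℤ) : Finset ℤ) := by
    intro u hu
    obtain ⟨hu1, α, hα, c, hc, y, hy⟩ := hE u hu
    rw [Finset.coe_image]
    refine ⟨((α, c), y), ?_, ?_⟩
    · rw [Finset.mem_coe, Finset.mem_product, Finset.mem_product, Finset.mem_Icc]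
      refine ⟨⟨hα, hc⟩, ?_⟩
      have h1 : |y| ^ M ≤ A * B := by
        have h2 : |y| ^ M ≤ |c * y ^ M| := by
          rw [abs_mul, abs_pow]
          have h3 : 1 ≤ |c| := Int.one_le_abs (h0 c hc)
          have h4 : 0 ≤ |y| ^ M := by positivity
          nlinarith
        have h3 : |u * α.den - α.num * v| ≤ (α.den + α.num.natAbs : ℕ) * (B : ℤ) := by
          have h4 : |u * α.den - α.num * v| ≤ |u * α.den| + |α.num * v| := abs_sub _ _
          have h5 : |u * (α.den : ℤ)| = |u| * α.den := by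
            rw [abs_mul, Nat.abs_cast]
          have h6 : |α.num * (v : ℤ)| = |α.num| * v := by
            rw [abs_mul, Nat.abs_cast]
          have h7 : (0 : ℤ) ≤ α.den := by positivity
          have h8 : (0 : ℤ) ≤ |α.num| := abs_nonneg _
          have h9 : (v : ℤ) ≤ B := by exact_mod_cast hv
          have h10 : ((α.den + α.num.natAbs : ℕ) : ℤ) = α.den + |α.num| := by
            push_cast
            rfl
          rw [h10]
          nlinarith
        have h4 : (α.den + α.num.natAbs : ℕ) ≤ A :=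
          Finset.single_le_sum (f := fun α : ℚ => α.den + α.num.natAbs)
            (fun _ _ => Nat.zero_le _) hα
        have h5 : ((α.den + α.num.natAbs : ℕ) : ℤ) * B ≤ A * B := by
          exact_mod_cast Nat.mul_le_mul_right B h4
        rw [hy] at h3
        exact h2.trans (h3.trans h5)
      have h2 : (|y| : ℝ) ≤ R := by
        have h3 : ((|y| : ℤ) : ℝ) ^ M ≤ A * B := by exact_mod_cast h1
        have h4 : (((|y| : ℤ) : ℝ) ^ M) ^ ((1 : ℝ) / M) ≤ R :=
          Real.rpow_le_rpow (by positivity) h3 (by positivity)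
        rw [← Real.rpow_natCast, ← Real.rpow_mul (by positivity), mul_one_div_cancel hM0,
          Real.rpow_one] at h4
        exact_mod_cast h4
      have h3 : |y| ≤ L := by
        have h4 : y.natAbs ≤ ⌊R⌋₊ := by
          apply Nat.le_floor
          have h5 : ((y.natAbs : ℕ) : ℝ) = |(y : ℝ)| := by
            rw [← Int.cast_abs, Int.abs_eq_natAbs]
            rfl
          rw [h5]
          exact_mod_cast h2
        rw [Int.abs_eq_natAbs, hL]
        exact_mod_cast h4
      exact abs_le.1 h3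
    · have h1 : c * y ^ M + α.num * v = u * α.den := by rw [← hy]; ring
      change (c * y ^ M + α.num * v) / (α.den : ℤ) = u
      rw [h1]
      exact Int.mul_ediv_cancel _ (by exact_mod_cast α.den_pos.ne')
  have hcard : E.ncard ≤ (D.card * 𝒞.card) * (2 * ⌊R⌋₊ + 1) := by
    refine (Set.ncard_le_ncard hsub (Finset.finite_toSet _)).trans ?_
    rw [Set.ncard_coe_finset]
    refine Finset.card_image_le.trans ?_
    rw [Finset.card_product, Finset.card_product, Int.card_Icc]
    apply Nat.mul_le_mul_left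
    omega
  have hB1 : (1 : ℝ) ≤ (B : ℝ) ^ ((1 : ℝ) / M) := Real.one_le_rpow (by exact_mod_cast hB) (by positivity)
  have hRe : R = (A : ℝ) ^ ((1 : ℝ) / M) * (B : ℝ) ^ ((1 : ℝ) / M) :=
    Real.mul_rpow (by positivity) (by positivity)
  calc (E.ncard : ℝ) ≤ ((D.card * 𝒞.card) * (2 * ⌊R⌋₊ + 1) : ℕ) := by exact_mod_cast hcard
    _ = (D.card * 𝒞.card : ℕ) * (2 * (⌊R⌋₊ : ℝ) + 1) := by push_cast; ring
    _ ≤ (D.card * 𝒞.card : ℕ) * (2 * R + 1) := by
        have := Nat.floor_le hR0
        gcongr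
    _ ≤ (D.card * 𝒞.card : ℕ) * ((2 * (A : ℝ) ^ ((1 : ℝ) / M) + 1) * (B : ℝ) ^ ((1 : ℝ) / M)) := by
        have : 2 * R + 1 ≤ (2 * (A : ℝ) ^ ((1 : ℝ) / M) + 1) * (B : ℝ) ^ ((1 : ℝ) / M) := by
          rw [hRe]
          linarith
        gcongr
    _ = _ := by ring

end Run7.h383.PK
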