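import Pool.Agent.Run7.h383.PK.Groups
import Pool.Agent.Run7.h383.PK.Pow

/-!
The members with almost integral parameters: rational functions of almost integral numbers, finitely
generated multiplicative groups, orbits of polynomials (helper file).
-/

set_option autoImplicit false

open Polynomial

namespace Run7.h383.PK

open MvPolynomial Pool.Agent.R424.TG Pool.Agent.R424.PT
open Pool.Agent.Results.MP_28d749_ag.RandomMultisections (curve xCoord EndRing InSubgroup)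

variable {κ I : Type} {r q N : ℕ}

/-- The almost integral numbers. -/
def almost (s : ℕ) : Subring ℚ where
  carrier := {y | ∃ (k : ℕ) (a : ℤ), (s : ℚ) ^ k * y = a}
  mul_mem' := by
    rintro x y ⟨k, a, h⟩ ⟨l, b, h'⟩
    refine ⟨k + l, a * b, ?_⟩
    rw [pow_add, Int.cast_mul, ← h, ← h']
    ring
  one_mem' := ⟨0, 1, by simp⟩
  add_mem' := by
    rintro x y ⟨k, a, h⟩ ⟨l, b, h'⟩
    refine ⟨k + l, a * (s : ℤ) ^ l + b * (s : ℤ) ^ k, ?_⟩
    rw [pow_add]
    push_cast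
    rw [← h, ← h']
    ring
  zero_mem' := ⟨0, 0, by simp⟩
  neg_mem' := by
    rintro x ⟨k, a, h⟩
    exact ⟨k, -a, by rw [mul_neg, h, Int.cast_neg]⟩

theorem den_almost {s : ℕ} {x : ℚ} (h : x.den ∣ s) : x ∈ almost s := by
  obtain ⟨w, hw⟩ := h
  refine ⟨1, x.num * w, ?_⟩
  have h1 : x * x.den = x.num := Rat.mul_den_eq_num x
  rw [pow_one, hw]
  push_cast
  linear_combination (w : ℚ) * h1

theorem orbit_int (φ : ℚ[X]) (x₀ : ℚ) : ∃ s : ℕ, s ≠ 0 ∧ ∀ n : ℕ,
    ∃ (k : ℕ) (a : ℤ), (s : ℚ) ^ k * (fun x => φ.eval x)^[n] x₀ = a := by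
  set s : ℕ := x₀.den * ∏ i ∈ φ.support, (φ.coeff i).den with hs
  refine ⟨s, ?_, fun n => ?_⟩
  · rw [hs]
    exact Nat.mul_ne_zero x₀.den_nz (Finset.prod_ne_zero_iff.2 fun i _ => (φ.coeff i).den_nz)
  · change (fun x => φ.eval x)^[n] x₀ ∈ almost s
    induction n with
    | zero => exact den_almost (dvd_mul_right _ _)
    | succ n ih =>
      rw [Function.iterate_succ_apply']
      rw [eval_eq_sum, Polynomial.sum]
      refine Subring.sum_mem _ fun i hi => Subring.mul_mem _ (den_almost ?_)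
        (Subring.pow_mem _ ih _)
      exact (Finset.dvd_prod_of_mem _ hi).mul_left _

/-- The hypothesis on `P / Q`: for all `α ∈ D` the polynomial `P - α Q` has at least two complex
zeros, at least three if `M = 2`, of multiplicities prime to `M`. -/
def Ramified (M : ℕ) (D : Finset ℚ) (P Q : ℚ[X]) : Prop :=
  ∀ α ∈ D, ∃ Z : Finset ℂ, 2 ≤ Z.card ∧ 5 ≤ M + Z.card ∧
    ∀ b ∈ Z, ((P - Polynomial.C α * Q).map (algebraMap ℚ ℂ)).rootMultiplicity b ≠ 0 ∧
      (((P - Polynomial.C α * Q).map (algebraMap ℚ ℂ)).rootMultiplicity b).Coprime M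

/-- All but finitely many values of a rational function at almost integral numbers. -/
theorem values [Finite κ]
    (F : κ → MvPolynomial (Coord r q ⊕ Fin N) (Polynomial (algebraicClosure ℚ ℂ)))
    (D : Finset ℚ) (M m : ℕ) (hM : 2 ≤ M)
    (hgen : GenericM M m (fun j => (F j).support) (orders F D)) (P Q : ℚ[X])
    (hcop : IsCoprime P Q) (hPQ : Ramified M D P Q) (s : ℕ) (hs : s ≠ 0) :
    {y : ℚ | (∃ (k : ℕ) (a : ℤ), (s : ℚ) ^ k * y = a) ∧
      ¬ NoAtypicalP m (MemberP F ((P.eval y / Q.eval y : ℚ) : ℂ) : ∀ s : Fin 2 ⊕ Fin r → ℂ,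
        (Fin q → (curve (s (Sum.inl 0)) (s (Sum.inl 1))).Point) → Prop)}.Finite := by
  classical
  obtain ⟨P₀, hP₀⟩ := goodM F D M m hgen
  set P₁ : ℕ := P₀ + ∑ α ∈ D, α.den with hP₁
  have hden : ∀ α ∈ D, α.den ≤ P₁ := fun α hα => by
    have := Finset.single_le_sum (f := fun α : ℚ => α.den) (fun _ _ => Nat.zero_le _) hα
    omega
  have hfin : (⋃ α ∈ D, {y : ℚ | (∃ (k : ℕ) (a : ℤ), (s : ℚ) ^ k * y = a) ∧
      ¬ GoodAt P₁ M (num α (P.eval y / Q.eval y))}).Finite := by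
    refine D.finite_toSet.biUnion fun α hα => ?_
    obtain ⟨Z, h2, h5, hZ⟩ := hPQ α hα
    exact siegel P Q hcop α hM Z hZ h2 h5 hs (hden α hα)
  refine hfin.subset ?_
  rintro y ⟨hy, hbad⟩
  by_contra hcon
  simp only [Set.mem_iUnion, not_exists] at hcon
  refine hbad (hP₀ _ fun α hα => ?_)
  have h1 : GoodAt P₁ M (num α (P.eval y / Q.eval y)) := by
    by_contra h2
    exact hcon α hα ⟨hy, h2⟩
  exact h1.anti (Nat.le_add_right _ _)

theorem iterates (φ : ℚ[X]) (j : ℕ) (x : ℚ) :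
    ((φ.comp)^[j] Polynomial.X).eval x = (fun x => φ.eval x)^[j] x := by
  rw [iterate_comp_eval, Polynomial.eval_X]

/-- All but finitely many elements of an infinite orbit of a polynomial. -/
theorem orbits [Finite κ]
    (F : κ → MvPolynomial (Coord r q ⊕ Fin N) (Polynomial (algebraicClosure ℚ ℂ)))
    (D : Finset ℚ) (M m : ℕ) (hM : 2 ≤ M)
    (hgen : GenericM M m (fun j => (F j).support) (orders F D)) (φ : ℚ[X]) (j : ℕ)
    (hφ : Ramified M D ((φ.comp)^[j] Polynomial.X) 1) (x₀ : ℚ)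
    (hx : Function.Injective fun n : ℕ => (fun x => φ.eval x)^[n] x₀) :
    {n : ℕ | ¬ NoAtypicalP m (MemberP F (((fun x => φ.eval x)^[n] x₀ : ℚ) : ℂ) :
      ∀ s : Fin 2 ⊕ Fin r → ℂ,
        (Fin q → (curve (s (Sum.inl 0)) (s (Sum.inl 1))).Point) → Prop)}.Finite := by
  obtain ⟨s, hs, hint⟩ := orbit_int φ x₀
  have h1 := values F D M m hM hgen ((φ.comp)^[j] Polynomial.X) 1 isCoprime_one_right hφ s hs
  have h2 := h1.preimage hx.injOn
  refine ((h2.image fun n => n + j).union (Set.finite_lt_nat j)).subset ?_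
  intro n hn
  by_cases hnj : n < j
  · exact Or.inr hnj
  · left
    refine ⟨n - j, ⟨hint _, ?_⟩, Nat.sub_add_cancel (not_lt.1 hnj)⟩
    rw [eval_one, div_one, iterates, ← Function.iterate_add_apply,
      Nat.add_sub_cancel' (not_lt.1 hnj)]
    exact hn

/-- All but finitely many elements of a finitely generated multiplicative group. -/
theorem groups [Finite κ]
    (F : κ → MvPolynomial (Coord r q ⊕ Fin N) (Polynomial (algebraicClosure ℚ ℂ)))
    (D : Finset ℚ) (M m : ℕ) (hM : 2 ≤ M)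
    (hgen : GenericM M m (fun j => (F j).support) (orders F D)) (hD : (0 : ℚ) ∉ D)
    (Γ : Subgroup ℚˣ) (hΓ : Γ.FG) :
    {t : ℚˣ | t ∈ Γ ∧ ¬ NoAtypicalP m (MemberP F ((t : ℚ) : ℂ) : ∀ s : Fin 2 ⊕ Fin r → ℂ,
        (Fin q → (curve (s (Sum.inl 0)) (s (Sum.inl 1))).Point) → Prop)}.Finite := by
  obtain ⟨s, hs, hint⟩ := group_int Γ hΓ
  obtain ⟨R, hR, hcos⟩ := cube_cosets Γ hΓ
  have hfin : (⋃ c ∈ R, (fun y : ℚˣ => c * y ^ 3) '' ((fun y : ℚˣ => (y : ℚ)) ⁻¹'
      {y : ℚ | (∃ (k : ℕ) (a : ℤ), (s : ℚ) ^ k * y = a) ∧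
      ¬ NoAtypicalP m (MemberP F (((Polynomial.C (c : ℚ) * Polynomial.X ^ 3 : ℚ[X]).eval y /
        (1 : ℚ[X]).eval y : ℚ) : ℂ) : ∀ s : Fin 2 ⊕ Fin r → ℂ,
        (Fin q → (curve (s (Sum.inl 0)) (s (Sum.inl 1))).Point) → Prop)})).Finite := by
    refine hR.biUnion fun c _ => Set.Finite.image _ ?_
    refine Set.Finite.preimage (fun x _ y _ h => Units.ext h) ?_
    refine values F D M m hM hgen _ 1 isCoprime_one_right (fun α hα => ?_) s hs
    obtain ⟨Z, hZ3, hZ⟩ := cube_zer (M := M) (c : ℚ) α c.ne_zero (fun h => hD (h ▸ hα))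
    exact ⟨Z, by omega, by omega, hZ⟩
  refine hfin.subset ?_
  rintro t ⟨ht, hbad⟩
  obtain ⟨c, hc, y, hy, rfl⟩ := hcos t ht
  rw [Set.mem_iUnion₂]
  refine ⟨c, hc, y, ⟨hint y hy, ?_⟩, rfl⟩
  simpa using hbad

end Run7.h383.PK
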