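import Pool.Agent.Run7.h383.PK.Scale
import Pool.Agent.R424.PT.Fam

/-!
Members with rational parameters `t` such that `t - α` has an order not divisible by `M` at a large
prime number (helper file).
-/

set_option autoImplicit false

namespace Run7.h383.PK

open MvPolynomial Pool.Agent.R424.TG Pool.Agent.R424.PT
open Pool.Agent.Results.MP_28d749_ag.RandomMultisections (curve xCoord EndRing InSubgroup)

variable {κ I : Type} {r q N : ℕ}

/-- The orders of the coefficients near the elements of `D`, at the places above large primes. -/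
theorem near_largeM [Finite κ]
    (F : κ → MvPolynomial (Coord r q ⊕ Fin N) (Polynomial (algebraicClosure ℚ ℂ)))
    (D : Finset ℚ) : ∃ P₀ : ℕ, (∀ α ∈ D, α.den ≤ P₀) ∧ ∀ p : ℕ, p.Prime → P₀ < p →
      ∀ V : ValuationSubring ℂ, (p : ℂ) ∈ V.nonunits → ∀ (α : {α // α ∈ D}) (t : ℂ) (k : ℕ), 0 < k →
        V.valuation (t - ((α : ℚ) : ℂ)) = V.valuation (p : ℂ) ^ k → ∀ j, ∀ β ∈ (F j).support,
          V.valuation (Polynomial.aeval t ((F j).coeff β)) =
            V.valuation (p : ℂ) ^ (k * orders F D α j β) := by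
  classical
  let ι := Σ j : κ, {β // β ∈ (F j).support}
  obtain ⟨W, hW, -, -, hnear⟩ := near' (ι := ι) (fun x => (F x.1).coeff (x.2 : _ →₀ ℕ))
    (fun x => mem_support_iff.1 x.2.2)
    (D.image fun α : ℚ => algebraMap ℚ (algebraicClosure ℚ ℂ) α) ∅ Set.finite_empty
  have := hW.to_subtype
  obtain ⟨D₀, hD₀, halg⟩ := Pool.Agent.W466.ZP.alg_mem
    (fun z : W => algebraMap (algebraicClosure ℚ ℂ) ℂ z)
    (fun z => mem_algebraicClosure_iff.1 (z : algebraicClosure ℚ ℂ).2)
  refine ⟨D₀ + ∑ α ∈ D, α.den, fun α hα => ?_, fun p hp hpP V hV α t k hk ht j β hβ => ?_⟩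
  · have := Finset.single_le_sum (f := fun α : ℚ => α.den) (fun _ _ => Nat.zero_le _) hα
    omega
  · have hpD : ¬ p ∣ D₀ := fun h => by
      have := Nat.le_of_dvd hD₀ h
      omega
    have hWV : ∀ z ∈ W, algebraMap (algebraicClosure ℚ ℂ) ℂ z ∈ V := fun z hz =>
      halg p hp hpD V hV ⟨z, hz⟩
    have hp1 : V.valuation (p : ℂ) < 1 := by rwa [ValuationSubring.mem_nonunits_iff] at hV
    have hα : algebraMap (algebraicClosure ℚ ℂ) ℂ (algebraMap ℚ (algebraicClosure ℚ ℂ) α) =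
        ((α : ℚ) : ℂ) := by
      rw [← IsScalarTower.algebraMap_apply ℚ (algebraicClosure ℚ ℂ) ℂ]
      rfl
    have h1 := hnear V hWV (algebraMap ℚ (algebraicClosure ℚ ℂ) α)
      (Finset.mem_image_of_mem _ α.2) t
      (by rw [hα, ht]; exact pow_lt_one₀ zero_le hp1 hk.ne') ⟨j, β, hβ⟩
    rw [hα, ht, ← pow_mul] at h1
    exact h1

/-- The numerator of `t - α`, up to cancellation. -/
def num (α t : ℚ) : ℤ := t.num * α.den - α.num * t.den

/-- The value of `t - α`. -/
theorem val_nearM {p : ℕ} (hp : p.Prime) {V : ValuationSubring ℂ} (hV : (p : ℂ) ∈ V.nonunits)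
    {k : ℕ} (hk : 0 < k) (t α : ℚ) (hα : α.den < p)
    (h1 : (p : ℤ) ^ k ∣ num α t) (h2 : ¬ (p : ℤ) ^ (k + 1) ∣ num α t) :
    V.valuation ((t : ℂ) - (α : ℂ)) = V.valuation (p : ℂ) ^ k := by
  have hpp : Prime (p : ℤ) := Nat.prime_iff_prime_int.1 hp
  obtain ⟨w, hw⟩ := h1
  have hwp : ¬ (p : ℤ) ∣ w := by
    rintro ⟨x, hx⟩
    exact h2 ⟨x, by rw [hw, hx, pow_succ]; ring⟩
  have hden : ¬ (p : ℤ) ∣ (α.den : ℤ) := by
    intro h
    have h3 : p ∣ α.den := by exact_mod_cast h
    have := Nat.le_of_dvd α.den_pos h3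
    omega
  have hcop : IsCoprime t.num (t.den : ℤ) := by
    rw [Int.isCoprime_iff_gcd_eq_one]
    exact t.reduced
  have hpv : ¬ (p : ℤ) ∣ (t.den : ℤ) := by
    intro h
    have h3 : (p : ℤ) ∣ t.num * α.den := by
      have h4 : (p : ℤ) ∣ num α t := by
        rw [hw]
        exact (dvd_pow_self _ hk.ne').mul_right _
      have h5 := h4.add (h.mul_left α.num)
      rwa [num, sub_add_cancel] at h5
    rcases hpp.dvd_or_dvd h3 with h4 | h4
    · have h5 := hcop.isUnit_of_dvd' h4 h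
      exact hpp.not_isUnit h5
    · exact hden h4
  have hvC : (t.den : ℂ) ≠ 0 := by exact_mod_cast t.den_nz
  have hdC : (α.den : ℂ) ≠ 0 := by exact_mod_cast α.den_pos.ne'
  have h3 : ((t : ℂ) - (α : ℂ)) * ((t.den : ℂ) * α.den) = (p : ℂ) ^ k * w := by
    have h4 : (α : ℂ) = α.num / α.den := by
      conv_lhs => rw [← Rat.num_div_den α]
      push_cast
      rfl
    have h4' : (t : ℂ) = t.num / t.den := by
      conv_lhs => rw [← Rat.num_div_den t]
      push_cast
      rfl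
    rw [h4, h4', sub_mul]
    have h5 : (t.num : ℂ) / t.den * ((t.den : ℂ) * α.den) = t.num * α.den := by field_simp
    have h6 : (α.num : ℂ) / α.den * ((t.den : ℂ) * α.den) = α.num * t.den := by field_simp
    rw [h5, h6]
    exact_mod_cast hw
  have h4 := congrArg V.valuation h3
  have hv1 : V.valuation ((t.den : ℕ) : ℂ) = 1 := by
    have := Pool.Agent.W466.ZP.int_unit V hp hV (t.den : ℤ) hpv
    exact_mod_cast this
  have hd1 : V.valuation ((α.den : ℕ) : ℂ) = 1 := by
    have := Pool.Agent.W466.ZP.int_unit V hp hV (α.den : ℤ) hden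
    exact_mod_cast this
  rw [map_mul, map_mul, map_mul, map_pow, hv1, hd1, Pool.Agent.W466.ZP.int_unit V hp hV w hwp,
    mul_one, mul_one, mul_one] at h4
  exact h4

/-- A prime number larger than `P₀` divides `z` to an order which is not divisible by `M`. -/
def GoodAt (P₀ M : ℕ) (z : ℤ) : Prop :=
  ∃ p k : ℕ, p.Prime ∧ P₀ < p ∧ ¬ M ∣ k ∧ (p : ℤ) ^ k ∣ z ∧ ¬ (p : ℤ) ^ (k + 1) ∣ z

/-- The members with rational parameters `t` such that `t - α` has an order not divisible by `M` at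
a large prime number, for all `α ∈ D`. -/
theorem goodM [Finite κ]
    (F : κ → MvPolynomial (Coord r q ⊕ Fin N) (Polynomial (algebraicClosure ℚ ℂ)))
    (D : Finset ℚ) (M m : ℕ) (hgen : GenericM M m (fun j => (F j).support) (orders F D)) :
    ∃ P₀ : ℕ, ∀ t : ℚ, (∀ α ∈ D, GoodAt P₀ M (num α t)) →
      NoAtypicalP m (MemberP F (t : ℂ) : ∀ s : Fin 2 ⊕ Fin r → ℂ,
        (Fin q → (curve (s (Sum.inl 0)) (s (Sum.inl 1))).Point) → Prop) := by
  classical
  obtain ⟨P₀, hden, hP₀⟩ := near_largeM F D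
  refine ⟨P₀, fun t ht => ?_⟩
  have hgood : ∀ α : {α // α ∈ D}, GoodAt P₀ M (num α t) := fun α => ht α α.2
  choose p k hp hpP hM h1 h2 using hgood
  have hk : ∀ α, 0 < k α := fun α => Nat.pos_of_ne_zero fun h0 => hM α (h0 ▸ dvd_zero M)
  refine coreP m (fun j => (F j).support)
    (fun j β => Polynomial.aeval (t : ℂ) ((F j).coeff β)) (fun α j β => k α * orders F D α j β)
    (generic_sc hgen k hM) p hp fun α j β hβ V hV => ?_
  exact hP₀ (p α) (hp α) (hpP α) V hV α _ (k α) (hk α) (val_nearM (hp α) hV (hk α) t α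
    (lt_of_le_of_lt (hden α α.2) (hpP α)) (h1 α) (h2 α)) j β hβ

end Run7.h383.PK
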