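import Pool.Agent.Run7.h383.PK.Siegel
import Mathlib.GroupTheory.FiniteAbelian.Basic

/-!
Parameters in a finitely generated multiplicative group (helper file).
-/

set_option autoImplicit false

open Polynomial

namespace Run7.h383.PK

/-- The elements of a finitely generated group of rational numbers are almost integral. -/
theorem group_int (Γ : Subgroup ℚˣ) (hΓ : Γ.FG) : ∃ s : ℕ, s ≠ 0 ∧ ∀ t ∈ Γ,
    ∃ (k : ℕ) (a : ℤ), (s : ℚ) ^ k * (t : ℚ) = a := by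
  classical
  obtain ⟨G, hG⟩ := hΓ
  set s : ℕ := ∏ g ∈ G, ((g : ℚ).num.natAbs * (g : ℚ).den) with hs
  have hs0 : s ≠ 0 := by
    rw [hs]
    refine Finset.prod_ne_zero_iff.2 fun g _ => Nat.mul_ne_zero ?_ (g : ℚ).den_nz
    exact Int.natAbs_ne_zero.2 (Rat.num_ne_zero.2 g.ne_zero)
  refine ⟨s, hs0, fun t ht => ?_⟩
  suffices h : (∃ (k : ℕ) (a : ℤ), (s : ℚ) ^ k * (t : ℚ) = a) ∧
      ∃ (k : ℕ) (a : ℤ), (s : ℚ) ^ k * ((t⁻¹ : ℚˣ) : ℚ) = a from h.1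
  rw [← hG] at ht
  induction ht using Subgroup.closure_induction with
  | mem g hg =>
    have hdvd : ((g : ℚ).num.natAbs * (g : ℚ).den) ∣ s := Finset.dvd_prod_of_mem _ hg
    obtain ⟨w, hw⟩ := hdvd
    have hn : ((g : ℚ).num : ℚ) ≠ 0 := by exact_mod_cast Rat.num_ne_zero.2 g.ne_zero
    have hd : ((g : ℚ).den : ℚ) ≠ 0 := by exact_mod_cast (g : ℚ).den_nz
    have e1 : (g : ℚ) * (g : ℚ).den = (g : ℚ).num := Rat.mul_den_eq_num _
    have e2 : (g : ℚ)⁻¹ * (g : ℚ).num = (g : ℚ).den := by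
      rw [← e1, inv_mul_cancel_left₀ g.ne_zero]
    have habs : (((g : ℚ).num.natAbs : ℕ) : ℚ) = (g : ℚ).num.sign * (g : ℚ).num := by
      have h1 : (((g : ℚ).num.natAbs : ℕ) : ℤ) = (g : ℚ).num.sign * (g : ℚ).num := by
        rw [Int.natCast_natAbs]
        exact (Int.sign_mul_self_eq_abs _).symm
      have h2 := congrArg (fun z : ℤ => (z : ℚ)) h1
      simpa only [Int.cast_natCast, Int.cast_mul] using h2
    have hsw : (s : ℚ) = (g : ℚ).num.sign * (g : ℚ).num * (g : ℚ).den * w := by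
      rw [hw, ← habs]
      simp only [Nat.cast_mul]
    refine ⟨⟨1, (g : ℚ).num.sign * (g : ℚ).num * (g : ℚ).num * w, ?_⟩,
      ⟨1, (g : ℚ).num.sign * (g : ℚ).den * (g : ℚ).den * w, ?_⟩⟩
    · rw [pow_one, hsw]
      simp only [Int.cast_mul, Int.cast_natCast]
      linear_combination (((g : ℚ).num.sign : ℚ) * (g : ℚ).num * w) * e1
    · rw [pow_one, hsw, Units.val_inv_eq_inv_val]
      simp only [Int.cast_mul, Int.cast_natCast]
      linear_combination (((g : ℚ).num.sign : ℚ) * (g : ℚ).den * w) * e2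
  | one => exact ⟨⟨0, 1, by simp⟩, ⟨0, 1, by simp⟩⟩
  | mul x y hx hy h1 h2 =>
    obtain ⟨⟨k₁, a₁, e₁⟩, ⟨k₁', a₁', e₁'⟩⟩ := h1
    obtain ⟨⟨k₂, a₂, e₂⟩, ⟨k₂', a₂', e₂'⟩⟩ := h2
    refine ⟨⟨k₁ + k₂, a₁ * a₂, ?_⟩, ⟨k₁' + k₂', a₁' * a₂', ?_⟩⟩
    · push_cast
      rw [← e₁, ← e₂, pow_add]
      ring
    · push_cast
      rw [← e₁', ← e₂', pow_add]
      push_cast
      rw [mul_inv]
      ring
  | inv x hx h =>
    refine ⟨h.2, ?_⟩
    rw [inv_inv]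
    exact h.1

/-- The cosets modulo the cubes. -/
theorem cube_cosets (Γ : Subgroup ℚˣ) (hΓ : Γ.FG) : ∃ R : Set ℚˣ, R.Finite ∧
    ∀ t ∈ Γ, ∃ c ∈ R, ∃ y ∈ Γ, t = c * y ^ 3 := by
  have : Group.FG Γ := (Group.fg_iff_subgroup_fg Γ).2 hΓ
  let H : Subgroup Γ := (powMonoidHom 3 : Γ →* Γ).range
  have htor : IsMulTorsion (Γ ⧸ H) := by
    intro x
    induction x using QuotientGroup.induction_on with
    | H x =>
      rw [isOfFinOrder_iff_pow_eq_one]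
      refine ⟨3, by norm_num, ?_⟩
      rw [← QuotientGroup.mk_pow, QuotientGroup.eq_one_iff]
      exact ⟨x, rfl⟩
  have : Finite (Γ ⧸ H) := CommGroup.finite_of_fg_isMulTorsion _ htor
  refine ⟨Set.range fun x : Γ ⧸ H => ((x.out : Γ) : ℚˣ), Set.finite_range _, fun t ht => ?_⟩
  let x : Γ ⧸ H := QuotientGroup.mk ⟨t, ht⟩
  have h1 : (QuotientGroup.mk x.out : Γ ⧸ H) = QuotientGroup.mk ⟨t, ht⟩ := QuotientGroup.out_eq' x
  rw [QuotientGroup.eq] at h1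
  obtain ⟨y, hy⟩ := h1
  refine ⟨((x.out : Γ) : ℚˣ), ⟨x, rfl⟩, y, y.2, ?_⟩
  have h2 : (x.out : Γ) * y ^ 3 = ⟨t, ht⟩ := by
    have h3 : y ^ 3 = (x.out : Γ)⁻¹ * ⟨t, ht⟩ := hy
    rw [h3, mul_inv_cancel_left]
  have h4 := congrArg (fun z : Γ => (z : ℚˣ)) h2
  exact h4.symm

/-- The zeros of `c y³ - α`. -/
theorem cube_zer {M : ℕ} (c α : ℚ) (hc : c ≠ 0) (hα : α ≠ 0) :
    ∃ Z : Finset ℂ, Z.card = 3 ∧ Zer M (C c * X ^ 3 - C α * 1) Z := by
  classical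
  have hmap : (C c * X ^ 3 - C α * 1 : ℚ[X]).map (algebraMap ℚ ℂ) =
      C (c : ℂ) * (X ^ 3 - C ((α / c : ℚ) : ℂ)) := by
    have hcC : (c : ℂ) ≠ 0 := by exact_mod_cast hc
    simp only [Polynomial.map_sub, Polynomial.map_mul, Polynomial.map_pow, map_C, map_X, mul_one,
      mul_sub, ← C_mul]
    congr 2
    simp only [eq_ratCast]
    push_cast
    field_simp
  have hcC : (c : ℂ) ≠ 0 := by exact_mod_cast hc
  have ha : ((α / c : ℚ) : ℂ) ≠ 0 := by exact_mod_cast div_ne_zero hα hc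
  have hsep : (X ^ 3 - C ((α / c : ℚ) : ℂ) : ℂ[X]).Separable :=
    separable_X_pow_sub_C _ (by norm_num) ha
  have hsep' : (C (c : ℂ) * (X ^ 3 - C ((α / c : ℚ) : ℂ)) : ℂ[X]).Separable :=
    hsep.unit_mul (isUnit_C.2 (isUnit_iff_ne_zero.2 hcC))
  have h0 : (C (c : ℂ) * (X ^ 3 - C ((α / c : ℚ) : ℂ)) : ℂ[X]) ≠ 0 := hsep'.ne_zero
  refine ⟨(C (c : ℂ) * (X ^ 3 - C ((α / c : ℚ) : ℂ)) : ℂ[X]).roots.toFinset, ?_, fun b hb => ?_⟩
  · rw [Multiset.toFinset_card_of_nodup (nodup_roots hsep'),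
      ← (IsAlgClosed.splits _).natDegree_eq_card_roots, natDegree_C_mul hcC,
      natDegree_X_pow_sub_C]
  · have h1 : 0 < rootMultiplicity b (C (c : ℂ) * (X ^ 3 - C ((α / c : ℚ) : ℂ)) : ℂ[X]) := by
      rw [rootMultiplicity_pos h0]
      exact (mem_roots h0).1 (Multiset.mem_toFinset.1 hb)
    have h2 := rootMultiplicity_le_one_of_separable hsep' b
    have h3 : rootMultiplicity b (C (c : ℂ) * (X ^ 3 - C ((α / c : ℚ) : ℂ)) : ℂ[X]) = 1 := by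
      omega
    rw [hmap, h3]
    exact ⟨one_ne_zero, Nat.coprime_one_left M⟩

end Run7.h383.PK
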