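import Pool.Agent.Run7.h383.PK.Final

/-!
All but finitely many almost integral members (helper file).
-/

set_option autoImplicit false

open Polynomial IsDedekindDomain NumberField

namespace Run7.h383.PK

open Pool.Agent.R424.TG Pool.Agent.R424.PT Pool.Agent.Y673.Loc Pool.Agent.K4H56.IF
open Pool.Agent.Results.MP_28d749_ag.RandomMultisections (curve xCoord EndRing InSubgroup)

variable {κ : Type} {r q N : ℕ}

/-- The condition at one degenerate point, for one `T` and one `ρ`: there are values `τ` for the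
coordinates in `T` such that all points of the tropicalization with these values satisfy
`IndependentM`. -/
def Covers (supp : κ → Finset ((Coord r q ⊕ Fin N) →₀ ℕ))
    (e : κ → ((Coord r q ⊕ Fin N) →₀ ℕ) → ℕ) (M ρ : ℕ) (T : Finset (Coord r q)) : Prop :=
  ∃ τ : Coord r q → ℚ, ∀ w : Coord r q ⊕ Fin N → WithTop ℚ, (∀ j, TropAt (supp j) (e j) w) →
    (∀ i ∈ T, w (Sum.inl i) = (τ i : WithTop ℚ)) → IndependentM M ρ w

/-- The criterion, with different degenerate points and moduli for the different `T` and `ρ`. -/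
theorem goodC [Finite κ]
    (F : κ → MvPolynomial (Coord r q ⊕ Fin N) (Polynomial (algebraicClosure ℚ ℂ)))
    (D : Finset ℚ) (m : ℕ) : ∃ P₀ : ℕ, (∀ α ∈ D, α.den ≤ P₀) ∧ ∀ t : ℚ,
      (∀ (ρ : ℕ) (T : Finset (Coord r q)), T.card + ρ = m + 1 → ∃ (α : {α // α ∈ D}) (M : ℕ),
        Covers (fun j => (F j).support) (orders F D α) M ρ T ∧ GoodAt P₀ M (num α t)) →
      NoAtypicalP m (MemberP F (t : ℂ) : ∀ s : Fin 2 ⊕ Fin r → ℂ,
        (Fin q → (curve (s (Sum.inl 0)) (s (Sum.inl 1))).Point) → Prop) := by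
  classical
  obtain ⟨P₀, hden, hP₀⟩ := near_largeM F D
  refine ⟨P₀, hden, fun t ht => ?_⟩
  let I := {x : ℕ × Finset (Coord r q) // x.2.card + x.1 = m + 1}
  have ht' : ∀ x : I, ∃ (α : {α // α ∈ D}) (M : ℕ),
      Covers (fun j => (F j).support) (orders F D α) M x.1.1 x.1.2 ∧ GoodAt P₀ M (num α t) :=
    fun x => ht x.1.1 x.1.2 x.2
  choose α M hcov hgood using ht'
  choose p k hp hpP hM h1 h2 using hgood
  have hk : ∀ x, 0 < k x := fun x => Nat.pos_of_ne_zero fun h0 => hM x (h0 ▸ dvd_zero _)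
  have hgen : GenericP m (fun j => (F j).support)
      (fun (x : I) j β => k x * orders F D (α x) j β) := by
    intro ρ T hT
    obtain ⟨τ, hτ⟩ := hcov ⟨(ρ, T), hT⟩
    have hkQ : (k ⟨(ρ, T), hT⟩ : ℚ) ≠ 0 := by exact_mod_cast (hk _).ne'
    refine ⟨⟨(ρ, T), hT⟩, fun i => k ⟨(ρ, T), hT⟩ * τ i, fun w hw hwT => ?_⟩
    refine indep_sc (hM ⟨(ρ, T), hT⟩) (hτ _ (fun j => trop_sc (hk _) (hw j)) fun i hi => ?_)
    rw [hwT i hi, sc_coe, inv_mul_cancel_left₀ hkQ]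
  refine coreP m (fun j => (F j).support)
    (fun j β => Polynomial.aeval (t : ℂ) ((F j).coeff β)) _ hgen p hp fun x j β hβ V hV => ?_
  exact hP₀ (p x) (hp x) (hpP x) V hV (α x) _ (k x) (hk x) (val_nearM (hp x) hV (hk x) t (α x)
    (lt_of_le_of_lt (hden (α x) (α x).2) (hpP x)) (h1 x) (h2 x)) j β hβ

/-- The zeros of `c yⁿ - a`. -/
theorem pow_zer {M n : ℕ} (hn : n ≠ 0) (c a : ℚ) (hc : c ≠ 0) (ha : a ≠ 0) :
    ∃ Z : Finset ℂ, Z.card = n ∧ Zer M (C c * X ^ n - C a) Z := by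
  classical
  have hmap : (C c * X ^ n - C a : ℚ[X]).map (algebraMap ℚ ℂ) =
      C (c : ℂ) * (X ^ n - C ((a / c : ℚ) : ℂ)) := by
    have hcC : (c : ℂ) ≠ 0 := by exact_mod_cast hc
    simp only [Polynomial.map_sub, Polynomial.map_mul, Polynomial.map_pow, map_C, map_X,
      mul_sub, ← C_mul]
    congr 2
    simp only [eq_ratCast]
    push_cast
    field_simp
  have hcC : (c : ℂ) ≠ 0 := by exact_mod_cast hc
  have ha : ((a / c : ℚ) : ℂ) ≠ 0 := by exact_mod_cast div_ne_zero ha hc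
  have hsep : (X ^ n - C ((a / c : ℚ) : ℂ) : ℂ[X]).Separable :=
    separable_X_pow_sub_C _ (by exact_mod_cast hn) ha
  have hsep' : (C (c : ℂ) * (X ^ n - C ((a / c : ℚ) : ℂ)) : ℂ[X]).Separable :=
    hsep.unit_mul (isUnit_C.2 (isUnit_iff_ne_zero.2 hcC))
  have h0 : (C (c : ℂ) * (X ^ n - C ((a / c : ℚ) : ℂ)) : ℂ[X]) ≠ 0 := hsep'.ne_zero
  refine ⟨(C (c : ℂ) * (X ^ n - C ((a / c : ℚ) : ℂ)) : ℂ[X]).roots.toFinset, ?_, fun b hb => ?_⟩
  · rw [Multiset.toFinset_card_of_nodup (nodup_roots hsep'),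
      ← (IsAlgClosed.splits _).natDegree_eq_card_roots, natDegree_C_mul hcC,
      natDegree_X_pow_sub_C]
  · have h1 : 0 < rootMultiplicity b (C (c : ℂ) * (X ^ n - C ((a / c : ℚ) : ℂ)) : ℂ[X]) := by
      rw [rootMultiplicity_pos h0]
      exact (mem_roots h0).1 (Multiset.mem_toFinset.1 hb)
    have h2 := rootMultiplicity_le_one_of_separable hsep' b
    have h3 : rootMultiplicity b (C (c : ℂ) * (X ^ n - C ((a / c : ℚ) : ℂ)) : ℂ[X]) = 1 := by
      omega
    rw [hmap, h3]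
    exact ⟨one_ne_zero, Nat.coprime_one_left M⟩

/-- Almost integral `t` such that `t - α` is a power up to large primes. -/
theorem integral_class {P₀ M s : ℕ} (hM : 2 ≤ M) (hs : s ≠ 0) (α : ℚ) : ∃ 𝒞 : Finset ℚ,
    (∀ c ∈ 𝒞, c ≠ 0) ∧ ∀ t : ℚ, (∃ (k : ℕ) (a : ℤ), (s : ℚ) ^ k * t = a) →
      ¬ GoodAt P₀ M (num α t) → ∃ c ∈ 𝒞, ∃ y : ℚ, (∃ (k : ℕ) (a : ℤ), (s : ℚ) ^ k * y = a) ∧
        t = α + c * y ^ M := by
  classical
  have hαd : (α.den : ℚ) ≠ 0 := by exact_mod_cast α.den_nz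
  refine ⟨((coefs P₀ M) ×ˢ (coefs s M)).image fun x => (x.1 : ℚ) / (α.den * x.2), ?_, ?_⟩
  · intro c hc
    obtain ⟨x, hx, rfl⟩ := Finset.mem_image.1 hc
    rw [Finset.mem_product] at hx
    have h1 : (x.1 : ℚ) ≠ 0 := by exact_mod_cast (Finset.mem_filter.1 hx.1).2
    have h2 : (x.2 : ℚ) ≠ 0 := by exact_mod_cast (Finset.mem_filter.1 hx.2).2
    exact div_ne_zero h1 (mul_ne_zero hαd h2)
  · rintro t ⟨k, a, hka⟩ hbad
    obtain ⟨c, hc, y, hy⟩ := power_class hM _ hbad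
    have hdvd : t.den ∣ s ^ k := by
      have h1 : ((s ^ k : ℕ) : ℚ) * t = a := by exact_mod_cast hka
      have h2 : (s : ℤ) ^ k * t.num = a * t.den := by
        have h3 : ((s ^ k : ℕ) : ℚ) * t.num = a * t.den := by
          rw [← h1, mul_assoc, Rat.mul_den_eq_num]
        exact_mod_cast h3
      have h3 : (t.den : ℤ) ∣ (s : ℤ) ^ k * t.num := ⟨a, by rw [h2]; ring⟩
      have h4 : IsCoprime (t.den : ℤ) t.num := by
        rw [Int.isCoprime_iff_gcd_eq_one, Int.gcd_comm]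
        exact t.reduced
      have h5 := h4.dvd_of_dvd_mul_right h3
      exact_mod_cast h5
    have hbad' : ¬ GoodAt s M (t.den : ℤ) := by
      rintro ⟨p, l, hp, hps, hl, h1, -⟩
      have hl0 : l ≠ 0 := fun h => hl (h ▸ dvd_zero M)
      have h2 : p ∣ s ^ k := by
        have h3 : (p : ℤ) ∣ (t.den : ℤ) := (dvd_pow_self _ hl0).trans h1
        exact (by exact_mod_cast h3 : p ∣ t.den).trans hdvd
      have h3 := hp.dvd_of_dvd_pow h2
      have := Nat.le_of_dvd (Nat.pos_of_ne_zero hs) h3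
      omega
    obtain ⟨c', hc', y', hy'⟩ := power_class hM _ hbad'
    have hc0 : (c' : ℚ) ≠ 0 := by exact_mod_cast (Finset.mem_filter.1 hc').2
    have hden : (t.den : ℚ) ≠ 0 := by exact_mod_cast t.den_nz
    have hy'Q : (t.den : ℚ) = c' * (y' : ℚ) ^ M := by exact_mod_cast hy'
    have hy0 : (y' : ℚ) ≠ 0 := by
      intro h
      rw [h, zero_pow (by omega), mul_zero] at hy'Q
      exact hden hy'Q
    refine ⟨(c : ℚ) / (α.den * c'), Finset.mem_image.2 ⟨(c, c'), Finset.mem_product.2 ⟨hc, hc'⟩,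
      rfl⟩, (y : ℚ) / y', ?_, ?_⟩
    · -- `y / y'` is almost integral
      have h1 : y' ∣ (s : ℤ) ^ k := by
        have h2 : y' ∣ (t.den : ℤ) := by
          rw [hy']
          exact (dvd_pow_self _ (by omega)).mul_left _
        exact h2.trans (by exact_mod_cast hdvd)
      obtain ⟨z, hz⟩ := h1
      refine ⟨k, z * y, ?_⟩
      have h3 : (s : ℚ) ^ k = y' * z := by exact_mod_cast hz
      rw [h3]
      push_cast
      field_simp
    · have h1 : ((num α t : ℤ) : ℚ) = (t - α) * (t.den * α.den) := by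
        have h1 : t * t.den = t.num := Rat.mul_den_eq_num t
        have h2 : α * α.den = α.num := Rat.mul_den_eq_num α
        have h3 : (t - α) * (t.den * α.den) = (t * t.den) * α.den - (α * α.den) * t.den := by ring
        rw [h3, h1, h2, num]
        push_cast
        ring
      rw [hy, hy'Q] at h1
      push_cast at h1
      have h2 : (t - α) = (c : ℚ) * (y : ℚ) ^ M / (c' * (y' : ℚ) ^ M * α.den) := by
        rw [h1]
        field_simp
      have h3 : t = α + (t - α) := by ring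
      rw [h3, h2, div_pow]
      field_simp

/-- **Two degenerate points.** -/
theorem pair_finite {P₀ M M' s : ℕ} (hM : 3 ≤ M) (hM' : 2 ≤ M') (hs : s ≠ 0) {α β : ℚ}
    (hαβ : α ≠ β) (hβ : β.den ≤ P₀) :
    {t : ℚ | (∃ (k : ℕ) (a : ℤ), (s : ℚ) ^ k * t = a) ∧ ¬ GoodAt P₀ M (num α t) ∧
      ¬ GoodAt P₀ M' (num β t)}.Finite := by
  classical
  obtain ⟨𝒞, h0, h𝒞⟩ := integral_class (P₀ := P₀) (s := s) (by omega : 2 ≤ M) hs α
  have hfin : (⋃ c ∈ 𝒞, (fun y : ℚ => α + c * y ^ M) ''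
      {y : ℚ | (∃ (k : ℕ) (a : ℤ), (s : ℚ) ^ k * y = a) ∧
        ¬ GoodAt P₀ M' (num β ((C c * X ^ M + C α : ℚ[X]).eval y / (1 : ℚ[X]).eval y))}).Finite := by
    refine 𝒞.finite_toSet.biUnion fun c hc => Set.Finite.image _ ?_
    obtain ⟨Z, hZc, hZ⟩ := pow_zer (M := M') (n := M) (by omega) c (β - α) (h0 c hc)
      (sub_ne_zero.2 hαβ.symm)
    refine siegel _ 1 isCoprime_one_right β hM' Z ?_ (by omega) (by omega) hs hβ
    have h1 : (C c * X ^ M + C α - C β * 1 : ℚ[X]) = C c * X ^ M - C (β - α) := by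
      rw [C_sub]
      ring
    rw [h1]
    exact hZ
  refine hfin.subset ?_
  rintro t ⟨ht, h1, h2⟩
  obtain ⟨c, hc, y, hy, hty⟩ := h𝒞 t ht h1
  rw [Set.mem_iUnion₂]
  refine ⟨c, hc, y, ⟨hy, ?_⟩, hty.symm⟩
  have h3 : (C c * X ^ M + C α : ℚ[X]).eval y / (1 : ℚ[X]).eval y = t := by
    rw [hty]
    simp only [eval_add, eval_mul, eval_C, eval_pow, eval_X, eval_one, div_one]
    ring
  rw [h3]
  exact h2

/-- **Three degenerate points.** -/
theorem triple_finite {P₀ s : ℕ} (hs : s ≠ 0) {α β γ : ℚ} (hαβ : α ≠ β) (hαγ : α ≠ γ)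
    (hβγ : β ≠ γ) (hα : α.den ≤ P₀) (hβ : β.den ≤ P₀) (hγ : γ.den ≤ P₀) :
    {t : ℚ | (∃ (k : ℕ) (a : ℤ), (s : ℚ) ^ k * t = a) ∧ ¬ GoodAt P₀ 2 (num α t) ∧
      ¬ GoodAt P₀ 2 (num β t) ∧ ¬ GoodAt P₀ 2 (num γ t)}.Finite := by
  classical
  have hone : ∀ a : ℚ, a.den ≤ P₀ → ∃ S : Set (HeightOneSpectrum (𝓞 ℚ)), S.Finite ∧ ∀ v ∉ S,
      ∀ y : ℚ, y ≠ a → IntN s y → ¬ GoodAt P₀ 2 (num a y) → (2 : ℤ) ∣ (adv ℚ v).v (y - a) := by
    intro a ha
    have hF : (X - C a * 1 : ℚ[X]) ≠ 0 := by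
      rw [mul_one]
      exact X_sub_C_ne_zero a
    have hm : ∀ f : ℚ →+* ℚ, ((X - C a * 1 : ℚ[X]).map f).rootMultiplicity a = 1 := by
      intro f
      rw [Subsingleton.elim f (RingHom.id ℚ), mul_one, Polynomial.map_id,
        rootMultiplicity_X_sub_C_self]
    obtain ⟨S, hS, h⟩ := near_dvd (K := ℚ) X 1 isCoprime_one_right a (M := 2) hF a
      (by rw [hm _]; exact Nat.coprime_one_left 2) (by rw [hm _]; exact one_ne_zero) hs ha
    refine ⟨S, hS, fun v hv y hya hy hbad => ?_⟩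
    have h1 := h v hv y (by simpa using hya) (by simpa using hy)
      (by rw [eval_X, eval_one, div_one]; exact hbad)
    simpa using h1
  obtain ⟨S₁, hS₁, h₁⟩ := hone α hα
  obtain ⟨S₂, hS₂, h₂⟩ := hone β hβ
  obtain ⟨S₃, hS₃, h₃⟩ := hone γ hγ
  have hfin := fin222 (M := ℚ) (S₁ ∪ S₂ ∪ S₃) ((hS₁.union hS₂).union hS₃) hs hαβ hαγ hβγ
  refine (hfin.union ({α, β, γ} : Finset ℚ).finite_toSet).subset ?_
  rintro t ⟨⟨k, a, hka⟩, g1, g2, g3⟩
  by_cases hmem : t = α ∨ t = β ∨ t = γ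
  · right
    simpa using hmem
  · left
    push Not at hmem
    have hint : IntN s t := by
      refine ⟨k, ?_⟩
      rw [hka]
      exact isIntegral_algebraMap (R := ℤ) (A := ℚ) (x := a)
    refine ⟨hint, fun v hv => ?_⟩
    simp only [Set.mem_union, not_or] at hv
    exact ⟨h₁ v hv.1.1 t hmem.1 hint g1, h₂ v hv.1.2 t hmem.2.1 hint g2,
      h₃ v hv.2 t hmem.2.2 hint g3⟩

/-- There are enough degenerate points: for every set `T` of coordinates and every `ρ` with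
`|T| + ρ = m + 1` the condition holds at two different `α, β ∈ D` with moduli `M ≥ 3` and `M' ≥ 2`, or
at three different elements of `D` with the modulus `2`. -/
def Enough (m : ℕ) (F : κ → MvPolynomial (Coord r q ⊕ Fin N) (Polynomial (algebraicClosure ℚ ℂ)))
    (D : Finset ℚ) : Prop :=
  ∀ (ρ : ℕ) (T : Finset (Coord r q)), T.card + ρ = m + 1 →
    (∃ (α β : {α // α ∈ D}) (M M' : ℕ), α ≠ β ∧ 3 ≤ M ∧ 2 ≤ M' ∧
      Covers (fun j => (F j).support) (orders F D α) M ρ T ∧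
      Covers (fun j => (F j).support) (orders F D β) M' ρ T) ∨
    ∃ α β γ : {α // α ∈ D}, α ≠ β ∧ α ≠ γ ∧ β ≠ γ ∧
      Covers (fun j => (F j).support) (orders F D α) 2 ρ T ∧
      Covers (fun j => (F j).support) (orders F D β) 2 ρ T ∧
      Covers (fun j => (F j).support) (orders F D γ) 2 ρ T

/-- **All but finitely many almost integral members.** -/
theorem members [Finite κ] (m : ℕ)
    (F : κ → MvPolynomial (Coord r q ⊕ Fin N) (Polynomial (algebraicClosure ℚ ℂ)))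
    (D : Finset ℚ) (hD : Enough m F D) (s : ℕ) (hs : s ≠ 0) :
    {t : ℚ | (∃ (k : ℕ) (a : ℤ), (s : ℚ) ^ k * t = a) ∧
      ¬ NoAtypicalP m (MemberP F (t : ℂ) : ∀ s : Fin 2 ⊕ Fin r → ℂ,
        (Fin q → (curve (s (Sum.inl 0)) (s (Sum.inl 1))).Point) → Prop)}.Finite := by
  classical
  obtain ⟨P₀, hden, hP₀⟩ := goodC F D m
  let I := {x : ℕ × Finset (Coord r q) // x.2.card + x.1 = m + 1}
  have hIfin : Finite I := by
    have hinj : Function.Injective fun x : I => x.1.2 := by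
      rintro ⟨⟨a, A⟩, ha⟩ ⟨⟨b, B⟩, hb⟩ h
      simp only at h ha hb
      subst h
      have : a = b := by omega
      subst this
      rfl
    exact Finite.of_injective _ hinj
  have hfin : ∀ x : I, {t : ℚ | (∃ (k : ℕ) (a : ℤ), (s : ℚ) ^ k * t = a) ∧
      ∀ (α : {α // α ∈ D}) (M : ℕ), Covers (fun j => (F j).support) (orders F D α) M x.1.1 x.1.2 →
        ¬ GoodAt P₀ M (num α t)}.Finite := by
    intro x
    rcases hD x.1.1 x.1.2 x.2 with ⟨α, β, M, M', hαβ, hM, hM', h1, h2⟩ |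
      ⟨α, β, γ, hαβ, hαγ, hβγ, h1, h2, h3⟩
    · refine (pair_finite (P₀ := P₀) hM hM' hs (fun h => hαβ (Subtype.ext h))
        (hden β β.2)).subset ?_
      rintro t ⟨ht, hbad⟩
      exact ⟨ht, hbad α M h1, hbad β M' h2⟩
    · refine (triple_finite (P₀ := P₀) hs (fun h => hαβ (Subtype.ext h))
        (fun h => hαγ (Subtype.ext h)) (fun h => hβγ (Subtype.ext h)) (hden α α.2) (hden β β.2)
        (hden γ γ.2)).subset ?_
      rintro t ⟨ht, hbad⟩
      exact ⟨ht, hbad α 2 h1, hbad β 2 h2, hbad γ 2 h3⟩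
  refine (Set.finite_iUnion hfin).subset ?_
  rintro t ⟨ht, hbad⟩
  by_contra hcon
  apply hbad
  refine hP₀ t fun ρ T hT => ?_
  by_contra hno
  apply hcon
  rw [Set.mem_iUnion]
  refine ⟨⟨(ρ, T), hT⟩, ht, fun α M hc hg => hno ⟨α, M, hc, hg⟩⟩

end Run7.h383.PK
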