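import Pool.Agent.R424.PT.Main

/-!
Pink's conjecture in the powers of elliptic schemes: tropical conditions which are stable under the
multiplication of the orders by integers not divisible by `M` (helper file).
-/

set_option autoImplicit false

namespace Run7.h383.PK

open MvPolynomial Pool.Agent.R424.TG Pool.Agent.R424.PT

variable {κ I : Type} {r q N : ℕ}

/-- For a point `w` of the tropicalization: there are more than `q - ρ` of the points `P_j` near to the
origin of the curve, `w(x_j) + 1/2 < μ` with `2 μ ≤ w(a)`, `3 μ ≤ w(b)`, such that the denominators of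
the differences of the values of their abscissas are divisible by `M`. -/
def IndependentM (M ρ : ℕ) (w : Coord r q ⊕ Fin N → WithTop ℚ) : Prop :=
  ∃ (J : Finset (Fin q)) (μ : ℚ) (x : Fin q → ℚ), q < J.card + ρ ∧
    ((2 * μ : ℚ) : WithTop ℚ) ≤ w (Sum.inl (Sum.inl (Sum.inl 0))) ∧
    ((3 * μ : ℚ) : WithTop ℚ) ≤ w (Sum.inl (Sum.inl (Sum.inl 1))) ∧
    (∀ j ∈ J, w (Sum.inl (Sum.inr j)) = (x j : WithTop ℚ) ∧ x j + 1 / 2 < μ) ∧
    ∀ i ∈ J, ∀ j ∈ J, i ≠ j → M ∣ (x i - x j).den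

/-- The condition on the tropicalizations: for every set `T` of coordinates and every `ρ` with
`|T| + ρ = m + 1` there is a place `l` and there are values `τ` for the coordinates in `T` such that all
points of the tropicalization at `l` with these values satisfy `IndependentM`. -/
def GenericM (M m : ℕ) (supp : κ → Finset ((Coord r q ⊕ Fin N) →₀ ℕ))
    (e : I → κ → ((Coord r q ⊕ Fin N) →₀ ℕ) → ℕ) : Prop :=
  ∀ (ρ : ℕ) (T : Finset (Coord r q)), T.card + ρ = m + 1 → ∃ (l : I) (τ : Coord r q → ℚ),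
    ∀ w : Coord r q ⊕ Fin N → WithTop ℚ, (∀ j, TropAt (supp j) (e l j) w) →
      (∀ i ∈ T, w (Sum.inl i) = (τ i : WithTop ℚ)) → IndependentM M ρ w

/-- Multiplication of the finite values by `c`. -/
noncomputable def sc (c : ℚ) : WithTop ℚ →+ WithTop ℚ := (AddMonoidHom.mulLeft c).withTopMap

theorem sc_coe (c x : ℚ) : sc c (x : WithTop ℚ) = ((c * x : ℚ) : WithTop ℚ) := rfl

theorem sc_top (c : ℚ) : sc c ⊤ = ⊤ := rfl

theorem sc_sc (c d : ℚ) (x : WithTop ℚ) : sc c (sc d x) = sc (c * d) x := by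
  induction x with
  | top => rfl
  | coe x => rw [sc_coe, sc_coe, sc_coe, mul_assoc]

theorem sc_one (x : WithTop ℚ) : sc 1 x = x := by
  induction x with
  | top => rfl
  | coe x => rw [sc_coe, one_mul]

theorem sc_mono {c : ℚ} (hc : 0 < c) {x y : WithTop ℚ} (h : x ≤ y) : sc c x ≤ sc c y := by
  induction y with
  | top => rw [sc_top]; exact le_top
  | coe y =>
    induction x with
    | top => exact absurd h (by simp)
    | coe x =>
      rw [sc_coe, sc_coe]
      exact WithTop.coe_le_coe.2 (mul_le_mul_of_nonneg_left (WithTop.coe_le_coe.1 h) hc.le)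

theorem value_sc {σ : Type} [Fintype σ] {k : ℕ} (hk : 0 < k) (w : σ → WithTop ℚ) (β : σ →₀ ℕ)
    (e : ℕ) : value (fun i => sc (k : ℚ)⁻¹ (w i)) β e = sc (k : ℚ)⁻¹ (value w β (k * e)) := by
  have hk0 : (k : ℚ) ≠ 0 := by exact_mod_cast hk.ne'
  have h1 : (k : ℚ)⁻¹ * ((k * e : ℕ) : ℚ) = e := by
    push_cast
    rw [inv_mul_cancel_left₀ hk0]
  rw [value, value, map_add, map_sum, sc_coe, h1]
  congr 1
  exact Finset.sum_congr rfl fun i _ => (map_nsmul _ _ _).symm

theorem trop_sc {σ : Type} [Fintype σ] {k : ℕ} (hk : 0 < k) {supp : Finset (σ →₀ ℕ)}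
    {e : (σ →₀ ℕ) → ℕ} {w : σ → WithTop ℚ} (h : TropAt supp (fun β => k * e β) w) :
    TropAt supp e (fun i => sc (k : ℚ)⁻¹ (w i)) := by
  have hkQ : (0 : ℚ) < (k : ℚ)⁻¹ := inv_pos.2 (by exact_mod_cast hk)
  rcases h with h | ⟨a, ha, b, hb, hab, h1, h2⟩
  · left
    intro β hβ
    rw [value_sc hk, h β hβ, sc_top]
  · right
    refine ⟨a, ha, b, hb, hab, ?_, fun β hβ => ?_⟩
    · rw [value_sc hk, value_sc hk, h1]
    · rw [value_sc hk, value_sc hk]
      exact sc_mono hkQ (h2 β hβ)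

theorem not_int {M k : ℕ} (hM : ¬ M ∣ k) {x : ℚ} (hx : M ∣ x.den) (n : ℤ) :
    (k : ℚ) * x ≠ n := by
  intro h
  have h1 : (k : ℤ) * x.num = n * x.den := by
    have h2 : (k : ℚ) * x.num = n * x.den := by
      rw [← h, mul_assoc, Rat.mul_den_eq_num]
    exact_mod_cast h2
  have h3 : (x.den : ℤ) ∣ (k : ℤ) * x.num := ⟨n, by rw [h1]; ring⟩
  have h4 : IsCoprime (x.den : ℤ) x.num := by
    rw [Int.isCoprime_iff_gcd_eq_one, Int.gcd_comm]
    exact x.reduced
  have h5 : (x.den : ℤ) ∣ k := h4.dvd_of_dvd_mul_right h3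
  exact hM (hx.trans (by exact_mod_cast h5))

theorem indep_sc {M k ρ : ℕ} (hM : ¬ M ∣ k) {w : Coord r q ⊕ Fin N → WithTop ℚ}
    (h : IndependentM M ρ (fun i => sc (k : ℚ)⁻¹ (w i))) : Independent ρ w := by
  have hk : 0 < k := Nat.pos_of_ne_zero fun h0 => hM (h0 ▸ dvd_zero M)
  have hkQ : (0 : ℚ) < k := by exact_mod_cast hk
  have hk1 : (1 : ℚ) ≤ k := by exact_mod_cast hk
  have hback : ∀ i, w i = sc (k : ℚ) (sc (k : ℚ)⁻¹ (w i)) := by
    intro i
    rw [sc_sc, mul_inv_cancel₀ hkQ.ne', sc_one]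
  obtain ⟨J, μ, x, hJ, ha, hb, hx, hd⟩ := h
  refine ⟨J, k * μ, fun j => k * x j, hJ, ?_, ?_, fun j hj => ?_, fun i hi j hj hij n => ?_⟩
  · rw [hback]
    have h1 := sc_mono hkQ ha
    rw [sc_coe] at h1
    refine le_trans (le_of_eq ?_) h1
    congr 1
    ring
  · rw [hback]
    have h1 := sc_mono hkQ hb
    rw [sc_coe] at h1
    refine le_trans (le_of_eq ?_) h1
    congr 1
    ring
  · obtain ⟨h1, h2⟩ := hx j hj
    have h1' : sc (k : ℚ)⁻¹ (w (Sum.inl (Sum.inr j))) = (x j : WithTop ℚ) := h1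
    refine ⟨?_, ?_⟩
    · rw [hback, h1', sc_coe]
    · have h3 : (k : ℚ) * (x j + 1 / 2) < k * μ := mul_lt_mul_of_pos_left h2 hkQ
      nlinarith
  · have h1 := not_int hM (hd i hi j hj hij) n
    intro h2
    apply h1
    rw [mul_sub]
    exact h2

/-- The condition `GenericM` implies `GenericP` for the orders multiplied by integers which are not
divisible by `M`. -/
theorem generic_sc {M m : ℕ} {supp : κ → Finset ((Coord r q ⊕ Fin N) →₀ ℕ)}
    {e : I → κ → ((Coord r q ⊕ Fin N) →₀ ℕ) → ℕ} (h : GenericM M m supp e) (k : I → ℕ)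
    (hk : ∀ l, ¬ M ∣ k l) : GenericP m supp (fun l j β => k l * e l j β) := by
  intro ρ T hT
  obtain ⟨l, τ, hτ⟩ := h ρ T hT
  have hk0 : 0 < k l := Nat.pos_of_ne_zero fun h0 => hk l (h0 ▸ dvd_zero M)
  have hkQ : (k l : ℚ) ≠ 0 := by exact_mod_cast hk0.ne'
  refine ⟨l, fun i => k l * τ i, fun w hw hwT => ?_⟩
  refine indep_sc (hk l) (hτ _ (fun j => trop_sc hk0 (hw j)) fun i hi => ?_)
  rw [hwT i hi, sc_coe, inv_mul_cancel_left₀ hkQ]

end Run7.h383.PK
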