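import Pool.Agent.K4H56.IF.Fin3

/-!
Finiteness of the almost integral elements `x` of a number field such that the orders of `x - b₁` and
`x - b₂` are divisible by `n ≥ 3` (helper file).
-/

set_option autoImplicit false

open IsDedekindDomain NumberField Polynomial

namespace Run7.h383.PK

open Pool.Agent.Y673.Loc Pool.Agent.Y673.Loc.ZV Pool.Agent.K4H56.IF
open Pool.Agent.Y215.AF Pool.Agent.H159R3.Exp Pool.Agent.Y741

section
variable {L : Type} [Field L]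

theorem G0_sum {w : ZV L} {ι : Type} (s : Finset ι) (f : ι → L) (h : ∀ i ∈ s, w.G 0 (f i)) :
    w.G 0 (∑ i ∈ s, f i) := by
  classical
  induction s using Finset.induction_on with
  | empty => rw [Finset.sum_empty]; exact G_zero
  | insert a s ha ih =>
    rw [Finset.sum_insert ha]
    exact (h a (Finset.mem_insert_self _ _)).add
      (ih fun i hi => h i (Finset.mem_insert_of_mem hi))

theorem G0_pow {w : ZV L} {x : L} (h : w.G 0 x) (k : ℕ) : w.G 0 (x ^ k) := by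
  induction k with
  | zero => rw [pow_zero]; exact E_one.G
  | succ k ih =>
    rw [pow_succ]
    simpa using ih.mul h

variable [NumberField L]

/-- **Two n-th powers.** -/
theorem two_pow (S : Set (HeightOneSpectrum (𝓞 L))) (hSf : S.Finite) {n : ℕ} (hn : 3 ≤ n)
    {b₁ b₂ ζ : L} (h12 : b₁ ≠ b₂) (hζ : IsPrimitiveRoot ζ n) :
    {x : L | (∀ v ∉ S, (adv L v).G 0 x) ∧
      ∃ y₁ y₂ : L, x - b₁ = y₁ ^ n ∧ x - b₂ = y₂ ^ n}.Finite := by
  classical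
  have hζn : ζ ^ n = 1 := hζ.pow_eq_one
  have hζ0 : ζ ≠ 0 := hζ.ne_zero (by omega)
  have hζ1 : ζ ≠ 1 := hζ.ne_one (by omega)
  have hζs : ζ ^ 2 ≠ 1 := by
    intro h
    have h1 := (hζ.pow_eq_one_iff_dvd 2).1 h
    have := Nat.le_of_dvd (by norm_num) h1
    omega
  have hp : 1 + ζ ≠ 0 := by
    intro h
    apply hζs
    have h1 : ζ = -1 := by linear_combination h
    rw [h1]
    norm_num
  set S' : Set (HeightOneSpectrum (𝓞 L)) := S ∪ {v | (adv L v).v (b₂ - b₁) ≠ 0} ∪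
    {v | ¬ (adv L v).G 0 b₁} ∪ {v | ¬ (adv L v).G 0 b₂} ∪ {v | (adv L v).v (1 + ζ) ≠ 0} with hS'
  have k21 : b₂ - b₁ ≠ 0 := sub_ne_zero.2 h12.symm
  have hS'f : S'.Finite :=
    ((((hSf.union (supp_finite k21)).union (pole_finite b₁)).union (pole_finite b₂)).union
      (supp_finite hp))
  have hU := su (L := L) S' hS'f
  set U := {x : L | x ≠ 0 ∧ 1 - x ≠ 0 ∧ ∀ v ∉ S', (adv L v).v x = 0 ∧ (adv L v).v (1 - x) = 0}
    with hUd
  refine ((hU.image fun u : L => b₂ + (b₂ - b₁) /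
    (((1 - u * (1 + ζ)) / (1 - u * (1 + ζ) / ζ)) ^ n - 1)).union (Set.finite_singleton b₂)).subset ?_
  rintro x ⟨hx, y₁, y₂, e₁, e₂⟩
  have hS1 : ∀ v ∉ S', v ∉ S ∧ (adv L v).v (b₂ - b₁) = 0 ∧ (adv L v).G 0 b₁ ∧
      (adv L v).G 0 b₂ ∧ (adv L v).v (1 + ζ) = 0 := by
    intro v hv
    simp only [hS', Set.mem_union, Set.mem_ofPred_eq, not_or, not_not] at hv
    obtain ⟨⟨⟨⟨a1, a2⟩, a3⟩, a4⟩, a5⟩ := hv
    exact ⟨a1, a2, a3, a4, a5⟩
  have f : y₁ ^ n - y₂ ^ n = b₂ - b₁ := by linear_combination e₂ - e₁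
  have fac : ∀ i : ℕ, (y₁ - ζ ^ i * y₂) *
      (∑ j ∈ Finset.range n, y₁ ^ j * (ζ ^ i * y₂) ^ (n - 1 - j)) = b₂ - b₁ := by
    intro i
    rw [mul_comm, geom_sum₂_mul, mul_pow, ← pow_mul, mul_comm i n, pow_mul, hζn, one_pow, one_mul, f]
  have ne : ∀ i : ℕ, y₁ - ζ ^ i * y₂ ≠ 0 := fun i h => k21 (by rw [← fac i, h, zero_mul])
  have hun : ∀ v ∉ S', (∀ i : ℕ, (adv L v).E 0 (y₁ - ζ ^ i * y₂)) ∧ (adv L v).E 0 ζ ∧
      (adv L v).E 0 (1 + ζ) := by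
    intro v hv
    obtain ⟨a1, a2, a3, a4, a5⟩ := hS1 v hv
    have g0 := hx v a1
    have g1 : (adv L v).G 0 y₁ := G_root (n := n) (by omega) (by rw [← e₁]; exact g0.sub a3)
    have g2 : (adv L v).G 0 y₂ := G_root (n := n) (by omega) (by rw [← e₂]; exact g0.sub a4)
    have gζ : (adv L v).E 0 ζ := by
      refine ⟨hζ0, ?_⟩
      have h1 := ((E_of_ne (w := adv L v) hζ0).pow n).2
      rw [hζn, v_one] at h1
      rcases mul_eq_zero.1 h1.symm with h2 | h2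
      · have : n = 0 := by exact_mod_cast h2
        omega
      · exact h2
    have gz : ∀ i : ℕ, (adv L v).G 0 (ζ ^ i * y₂) := fun i => by
      simpa using (G0_pow gζ.G i).mul g2
    refine ⟨fun i => ?_, gζ, ⟨hp, a5⟩⟩
    exact (unit_of_mul (g1.sub (gz i)) (G0_sum _ _ fun j _ => by
      simpa using (G0_pow g1 j).mul (G0_pow (gz i) (n - 1 - j))) k21 a2 (fac i)).1
  have n0 : y₁ - y₂ ≠ 0 := by simpa using ne 0
  have n1 : y₁ - ζ * y₂ ≠ 0 := by simpa using ne 1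
  have n2 : y₁ - ζ ^ 2 * y₂ ≠ 0 := ne 2
  by_cases hy : y₂ = 0
  · right
    rw [hy, zero_pow (by omega)] at e₂
    exact Set.mem_singleton_iff.2 (sub_eq_zero.1 e₂)
  left
  have e1u : 1 - ζ * (y₁ - y₂) / ((1 + ζ) * (y₁ - ζ * y₂)) =
      (y₁ - ζ ^ 2 * y₂) / ((1 + ζ) * (y₁ - ζ * y₂)) := by
    field_simp
    ring
  refine ⟨ζ * (y₁ - y₂) / ((1 + ζ) * (y₁ - ζ * y₂)), ⟨?_, ?_, ?_⟩, ?_⟩
  · exact div_ne_zero (mul_ne_zero hζ0 n0) (mul_ne_zero hp n1)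
  · rw [e1u]
    exact div_ne_zero n2 (mul_ne_zero hp n1)
  · intro v hv
    obtain ⟨u, uζ, up⟩ := hun v hv
    have u0 : (adv L v).E 0 (y₁ - y₂) := by simpa using u 0
    have u1 : (adv L v).E 0 (y₁ - ζ * y₂) := by simpa using u 1
    refine ⟨?_, ?_⟩
    · have := ((uζ.mul u0).div (up.mul u1)).2
      simpa using this
    · rw [e1u]
      have := ((u 2).div (up.mul u1)).2
      simpa using this
  · have h1 : 1 - ζ * (y₁ - y₂) / ((1 + ζ) * (y₁ - ζ * y₂)) * (1 + ζ) =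
        y₁ * (1 - ζ) / (y₁ - ζ * y₂) := by
      field_simp
      ring
    have h2 : 1 - ζ * (y₁ - y₂) / ((1 + ζ) * (y₁ - ζ * y₂)) * (1 + ζ) / ζ =
        y₂ * (1 - ζ) / (y₁ - ζ * y₂) := by
      field_simp
      ring
    have h3 : (1 - ζ * (y₁ - y₂) / ((1 + ζ) * (y₁ - ζ * y₂)) * (1 + ζ)) /
        (1 - ζ * (y₁ - y₂) / ((1 + ζ) * (y₁ - ζ * y₂)) * (1 + ζ) / ζ) = y₁ / y₂ := by
      rw [h1, h2]
      have h4 : 1 - ζ ≠ 0 := sub_ne_zero.2 hζ1.symm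
      field_simp
    show b₂ + (b₂ - b₁) / (((1 - ζ * (y₁ - y₂) / ((1 + ζ) * (y₁ - ζ * y₂)) * (1 + ζ)) /
        (1 - ζ * (y₁ - y₂) / ((1 + ζ) * (y₁ - ζ * y₂)) * (1 + ζ) / ζ)) ^ n - 1) = x
    rw [h3, ← f, div_pow]
    have hyn : y₂ ^ n ≠ 0 := pow_ne_zero _ hy
    have h5 : y₁ ^ n / y₂ ^ n - 1 = (y₁ ^ n - y₂ ^ n) / y₂ ^ n := by
      field_simp
    have h6 : y₁ ^ n - y₂ ^ n ≠ 0 := by rw [f]; exact k21
    have h7 : (y₁ ^ n - y₂ ^ n) / ((y₁ ^ n - y₂ ^ n) / y₂ ^ n) = y₂ ^ n := by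
      field_simp
    rw [h5, h7]
    linear_combination -e₂

end

section
variable {M : Type} [Field M] [NumberField M]

/-- **Two orders divisible by `n`.** -/
theorem finMM (S : Set (HeightOneSpectrum (𝓞 M))) (hS : S.Finite) {N : ℕ} (hN : N ≠ 0) {n : ℕ}
    (hn : 3 ≤ n) {b₁ b₂ : M} (h12 : b₁ ≠ b₂) :
    {x : M | IntN N x ∧ ∀ v ∉ S, (n : ℤ) ∣ (adv M v).v (x - b₁) ∧
      (n : ℤ) ∣ (adv M v).v (x - b₂)}.Finite := by
  classical
  obtain ⟨T, hT0, hT⟩ := sel (K := M) (n := n) (by omega) S hS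
  have hZ : ∀ δ ∈ T ×ˢ T, {x : M | IntN N x ∧ ∃ y₁ y₂ : M, x - b₁ = δ.1 * y₁ ^ n ∧
      x - b₂ = δ.2 * y₂ ^ n}.Finite := by
    rintro ⟨δ₁, δ₂⟩ -
    have hcyc : (cyclotomic n M).natDegree ≠ 0 := by
      rw [natDegree_cyclotomic]
      exact (Nat.totient_pos.2 (by omega)).ne'
    obtain ⟨L, _, _, _, hL⟩ := exists_ext (M := M)
      {X ^ n - C δ₁, X ^ n - C δ₂, cyclotomic n M} (by
        intro P hP
        simp only [Finset.mem_insert, Finset.mem_singleton] at hP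
        rcases hP with rfl | rfl | rfl
        · rw [natDegree_X_pow_sub_C]; omega
        · rw [natDegree_X_pow_sub_C]; omega
        · exact hcyc)
    obtain ⟨ζ, hζ⟩ := hL (cyclotomic n M) (by simp)
    have hnL : NeZero ((n : ℕ) : L) := ⟨by exact_mod_cast (by omega : n ≠ 0)⟩
    have hζ' : IsPrimitiveRoot ζ n := by
      rw [← isRoot_cyclotomic_iff, IsRoot.def, ← map_cyclotomic n (algebraMap M L),
        eval_map_algebraMap]
      exact hζ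
    have hr : ∀ δ, X ^ n - C δ ∈ ({X ^ n - C δ₁, X ^ n - C δ₂, cyclotomic n M} : Finset M[X]) →
        ∃ s : L, s ^ n = algebraMap M L δ := by
      intro δ hδ
      obtain ⟨s, hs⟩ := hL _ hδ
      refine ⟨s, ?_⟩
      rw [map_sub, map_pow, aeval_X, aeval_C] at hs
      exact sub_eq_zero.1 hs
    obtain ⟨s₁, hs₁⟩ := hr δ₁ (by simp)
    obtain ⟨s₂, hs₂⟩ := hr δ₂ (by simp)
    have hinj := (algebraMap M L).injective
    have hN0 : (N : L) ≠ 0 := Nat.cast_ne_zero.2 hN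
    have hfin := two_pow (L := L) _ (supp_finite hN0) hn (hinj.ne h12) hζ'
    refine (hfin.preimage (f := algebraMap M L) hinj.injOn).subset ?_
    rintro x ⟨hx, y₁, y₂, e₁, e₂⟩
    refine ⟨fun v hv => ?_, s₁ * algebraMap M L y₁, s₂ * algebraMap M L y₂, ?_, ?_⟩
    · simp only [Set.mem_ofPred_eq, not_not] at hv
      exact (hx.map (algebraMap M L)).G0 hN hv
    · rw [mul_pow, hs₁, ← map_sub, e₁]
      simp
    · rw [mul_pow, hs₂, ← map_sub, e₂]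
      simp
  refine (((Set.toFinite {b₁, b₂}).union
    (Set.Finite.biUnion (T ×ˢ T).finite_toSet fun δ hδ => hZ δ hδ))).subset ?_
  rintro x ⟨hx, hv⟩
  by_cases hx1 : x = b₁
  · left; rw [hx1]; simp
  by_cases hx2 : x = b₂
  · left; rw [hx2]; simp
  right
  obtain ⟨δ₁, h1, y₁, -, e₁⟩ := hT (x - b₁) (sub_ne_zero.2 hx1) fun v h => (hv v h).1
  obtain ⟨δ₂, h2, y₂, -, e₂⟩ := hT (x - b₂) (sub_ne_zero.2 hx2) fun v h => (hv v h).2
  exact Set.mem_biUnion (x := (δ₁, δ₂)) (by simp [h1, h2]) ⟨hx, y₁, y₂, e₁, e₂⟩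

end

end Run7.h383.PK
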