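import Pool.Agent.Run7.h383.PK.Good
import Pool.Agent.Run7.h383.PK.Two
import Pool.Agent.K4H56.IF.Loc

/-!
Almost integral numbers `y` such that `g(y) - α` has orders divisible by `M` at all large primes
(helper file).
-/

set_option autoImplicit false

open IsDedekindDomain NumberField Polynomial

namespace Run7.h383.PK

open Pool.Agent.Y673.Loc Pool.Agent.Y673.Loc.ZV Pool.Agent.K4H56.IF

/-- A prime number above `P₀`, at which `t - α` has a positive order not divisible by `M`. -/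
theorem goodAt_of {P₀ M q : ℕ} (hq : q.Prime) (hqP : P₀ < q) {α t : ℚ} (hα : α.den ≤ P₀)
    (hz : t - α ≠ 0) {k : ℕ} (hk : padicValRat q (t - α) = k) (hM : ¬ M ∣ k) :
    GoodAt P₀ M (num α t) := by
  have : Fact q.Prime := ⟨hq⟩
  have hk0 : 0 < k := Nat.pos_of_ne_zero fun h0 => hM (h0 ▸ dvd_zero M)
  have hqa : ¬ q ∣ α.den := fun h => by
    have := Nat.le_of_dvd α.den_pos h
    omega
  have hd0 : (t.den : ℚ) ≠ 0 := by exact_mod_cast t.den_nz
  have ha0 : (α.den : ℚ) ≠ 0 := by exact_mod_cast α.den_nz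
  have hnum : ((num α t : ℤ) : ℚ) = (t - α) * (t.den * α.den) := by
    have h1 : t * t.den = t.num := Rat.mul_den_eq_num t
    have h2 : α * α.den = α.num := Rat.mul_den_eq_num α
    have h3 : (t - α) * (t.den * α.den) = (t * t.den) * α.den - (α * α.den) * t.den := by ring
    rw [h3, h1, h2, num]
    push_cast
    ring
  have hn0 : num α t ≠ 0 := by
    intro h
    rw [h, Int.cast_zero] at hnum
    exact mul_ne_zero hz (mul_ne_zero hd0 ha0) hnum.symm
  have hval : (padicValInt q (num α t) : ℤ) = k + (padicValNat q t.den : ℤ) := by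
    have h1 : padicValRat q ((num α t : ℤ) : ℚ) = padicValInt q (num α t) := padicValRat.of_int
    rw [← h1, hnum, padicValRat.mul hz (mul_ne_zero hd0 ha0), padicValRat.mul hd0 ha0, hk,
      padicValRat.of_nat, padicValRat.of_nat, padicValNat.eq_zero_of_not_dvd hqa]
    push_cast
    ring
  have hqt : ¬ q ∣ t.den := by
    intro h
    have h1 : (q : ℤ) ∣ num α t := by
      have h2 : padicValInt q (num α t) ≠ 0 := by omega
      by_contra h3
      exact h2 (padicValInt.eq_zero_of_not_dvd h3)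
    have h2 : (q : ℤ) ∣ t.num * α.den := by
      have h3 : (q : ℤ) ∣ α.num * t.den := (Int.natCast_dvd_natCast.2 h).mul_left _
      have h4 := h1.add h3
      rwa [num, sub_add_cancel] at h4
    rcases (Nat.prime_iff_prime_int.1 hq).dvd_or_dvd h2 with h3 | h3
    · have hcop : IsCoprime t.num (t.den : ℤ) := by
        rw [Int.isCoprime_iff_gcd_eq_one]
        exact t.reduced
      exact (Nat.prime_iff_prime_int.1 hq).not_isUnit
        (hcop.isUnit_of_dvd' h3 (Int.natCast_dvd_natCast.2 h))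
    · exact hqa (Int.natCast_dvd_natCast.1 h3)
  have hval' : padicValInt q (num α t) = k := by
    rw [padicValNat.eq_zero_of_not_dvd hqt] at hval
    push_cast at hval
    omega
  refine ⟨q, k, hq, hqP, hM, ?_, ?_⟩
  · rw [← hval']
    exact (padicValInt_dvd_iff _ _).2 (Or.inr le_rfl)
  · intro h
    rcases (padicValInt_dvd_iff _ _).1 h with h1 | h1
    · exact hn0 h1
    · omega

/-- The zeros of `f` in `ℂ` of a multiplicity prime to `M`. -/
def Zer (M : ℕ) (f : ℚ[X]) (Z : Finset ℂ) : Prop :=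
  ∀ b ∈ Z, (f.map (algebraMap ℚ ℂ)).rootMultiplicity b ≠ 0 ∧
    ((f.map (algebraMap ℚ ℂ)).rootMultiplicity b).Coprime M

/-- Near a zero of `P - α Q`. -/
theorem near_dvd {K : Type} [Field K] [NumberField K] (P Q : ℚ[X]) (hcop : IsCoprime P Q) (α : ℚ)
    {M : ℕ} (hF : P - C α * Q ≠ 0) (b : K)
    (hb : (((P - C α * Q).map (algebraMap ℚ K)).rootMultiplicity b).Coprime M)
    (hb0 : ((P - C α * Q).map (algebraMap ℚ K)).rootMultiplicity b ≠ 0) {N : ℕ} (hN : N ≠ 0)
    {P₀ : ℕ} (hα : α.den ≤ P₀) :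
    ∃ S : Set (HeightOneSpectrum (𝓞 K)), S.Finite ∧ ∀ v ∉ S, ∀ y : ℚ, (y : K) ≠ b →
      IntN N (y : K) → ¬ GoodAt P₀ M (num α (P.eval y / Q.eval y)) →
      (M : ℤ) ∣ (adv K v).v ((y : K) - b) := by
  have hroot : ((P - C α * Q).map (algebraMap ℚ K)).eval b = 0 := by
    by_contra h
    exact hb0 (rootMultiplicity_eq_zero h)
  have hQb : (Q.map (algebraMap ℚ K)).eval b ≠ 0 := by
    intro h
    obtain ⟨u, w, huw⟩ := hcop
    have h1 : (P.map (algebraMap ℚ K)).eval b = 0 := by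
      rw [Polynomial.map_sub, Polynomial.map_mul, map_C, eval_sub, eval_mul, eval_C, h, mul_zero,
        sub_zero] at hroot
      exact hroot
    have h2 := congrArg (fun f => (f.map (algebraMap ℚ K)).eval b) huw
    simp only [Polynomial.map_add, Polynomial.map_mul, eval_add, eval_mul, h, h1, mul_zero,
      add_zero, Polynomial.map_one, eval_one] at h2
    exact zero_ne_one h2
  obtain ⟨S, hS, h⟩ := near_zero b (P - C α * Q) Q (P - C α * Q) Q hF hF hQb hQb P₀ N hN
  refine ⟨S, hS, fun v hv y hyb hy hbad => ?_⟩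
  rcases h v hv y hyb hy with h1 | ⟨p, m, hp, -, hpP, hm, -, hvm, hz, -, hval, -⟩
  · rw [h1]
    exact dvd_zero _
  · have hQy : Q.eval y ≠ 0 := by
      intro h0
      rw [h0, div_zero] at hz
      exact hz rfl
    have hz' : (P - C α * Q).eval y / Q.eval y = P.eval y / Q.eval y - α := by
      rw [eval_sub, eval_mul, eval_C]
      field_simp
    rw [hz'] at hz hval
    obtain ⟨m', rfl⟩ := Int.eq_ofNat_of_zero_le (by omega : 0 ≤ m)
    have hk : padicValRat p (P.eval y / Q.eval y - α) =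
        ((((P - C α * Q).map (algebraMap ℚ K)).rootMultiplicity b * m' : ℕ) : ℤ) := by
      rw [hval]
      push_cast
      rfl
    have hdvd : M ∣ ((P - C α * Q).map (algebraMap ℚ K)).rootMultiplicity b * m' := by
      by_contra hcon
      exact hbad (goodAt_of hp (by omega) hα hz hk hcon)
    have h2 : M ∣ m' := (Nat.Coprime.dvd_of_dvd_mul_left (Nat.Coprime.symm hb) hdvd)
    rw [hvm]
    exact (Int.natCast_dvd_natCast.2 h2).mul_left _

/-- **Finiteness of the exceptional almost integral parameters.** -/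
theorem siegel (P Q : ℚ[X]) (hcop : IsCoprime P Q) (α : ℚ) {M : ℕ} (hM : 2 ≤ M) (Z : Finset ℂ)
    (hZ : Zer M (P - C α * Q) Z) (h2 : 2 ≤ Z.card) (h5 : 5 ≤ M + Z.card) {N : ℕ} (hN : N ≠ 0)
    {P₀ : ℕ} (hα : α.den ≤ P₀) :
    {y : ℚ | (∃ (k : ℕ) (a : ℤ), (N : ℚ) ^ k * y = a) ∧
      ¬ GoodAt P₀ M (num α (P.eval y / Q.eval y))}.Finite := by
  classical
  set F : ℚ[X] := P - C α * Q with hFdef
  have hF : F ≠ 0 := by
    obtain ⟨b, hb⟩ := Finset.card_pos.1 (by omega : 0 < Z.card)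
    intro h
    apply (hZ b hb).1
    rw [h, Polynomial.map_zero, rootMultiplicity_zero]
  let K := SplittingField F
  have : NumberField K := NumberField.of_module_finite ℚ K
  obtain ⟨φ⟩ : Nonempty (K →ₐ[ℚ] ℂ) := ⟨IsAlgClosed.lift⟩
  have hφ : Function.Injective (φ : K →+* ℂ) := (φ : K →+* ℂ).injective
  have hmap : (F.map (algebraMap ℚ K)).map (φ : K →+* ℂ) = F.map (algebraMap ℚ ℂ) := by
    rw [Polynomial.map_map]
    congr 1
    exact RingHom.ext fun x => by simp
  have hsplit : (F.map (algebraMap ℚ K)).Splits := SplittingField.splits F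
  have hlift : ∀ b ∈ Z, ∃ b' : K, φ b' = b ∧ (F.map (algebraMap ℚ K)).rootMultiplicity b' =
      (F.map (algebraMap ℚ ℂ)).rootMultiplicity b := by
    intro b hb
    have h0 : (F.map (algebraMap ℚ ℂ)).eval b = 0 := by
      by_contra h
      exact (hZ b hb).1 (rootMultiplicity_eq_zero h)
    have h1 : b ∈ (F.map (algebraMap ℚ ℂ)).roots := by
      rw [mem_roots (Polynomial.map_ne_zero hF)]
      exact h0
    rw [← hmap, hsplit.roots_map (φ : K →+* ℂ), Multiset.mem_map] at h1
    obtain ⟨b', -, h2⟩ := h1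
    refine ⟨b', h2, ?_⟩
    rw [eq_rootMultiplicity_map hφ b', hmap]
    congr 1
  choose! g hg1 hg2 using hlift
  have hinj : Set.InjOn g (Z : Set ℂ) := by
    intro a ha b hb hab
    rw [← hg1 a ha, ← hg1 b hb, hab]
  have hnear : ∀ b ∈ Z, ∃ S : Set (HeightOneSpectrum (𝓞 K)), S.Finite ∧ ∀ v ∉ S, ∀ y : ℚ,
      (y : K) ≠ g b → IntN N (y : K) → ¬ GoodAt P₀ M (num α (P.eval y / Q.eval y)) →
      (M : ℤ) ∣ (adv K v).v ((y : K) - g b) := by
    intro b hb
    exact near_dvd P Q hcop α hF (g b) (by rw [← hFdef, hg2 b hb]; exact (hZ b hb).2)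
      (by rw [← hFdef, hg2 b hb]; exact (hZ b hb).1) hN hα
  choose! S hS hSv using hnear
  have hT : (⋃ b ∈ Z, S b).Finite := Z.finite_toSet.biUnion hS
  have hfin : {x : K | IntN N x ∧ ∀ v ∉ ⋃ b ∈ Z, S b, ∀ b ∈ Z,
      (M : ℤ) ∣ (adv K v).v (x - g b)}.Finite := by
    rcases Nat.lt_or_ge M 3 with hlt | hge
    · obtain rfl : M = 2 := by omega
      obtain ⟨b₁, h1, b₂, h2, b₃, h3, h12, h13, h23⟩ := Finset.two_lt_card.1 (by omega : 2 < Z.card)
      refine (fin222 _ hT hN (hinj.ne h1 h2 h12) (hinj.ne h1 h3 h13) (hinj.ne h2 h3 h23)).subset ?_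
      rintro x ⟨hx, hv⟩
      exact ⟨hx, fun v hvS => ⟨hv v hvS b₁ h1, hv v hvS b₂ h2, hv v hvS b₃ h3⟩⟩
    · obtain ⟨b₁, h1, b₂, h2, h12⟩ := Finset.one_lt_card.1 (by omega : 1 < Z.card)
      refine (finMM _ hT hN hge (hinj.ne h1 h2 h12)).subset ?_
      rintro x ⟨hx, hv⟩
      exact ⟨hx, fun v hvS => ⟨hv v hvS b₁ h1, hv v hvS b₂ h2⟩⟩
  have hinjQ : Function.Injective (fun y : ℚ => (y : K)) := Rat.cast_injective
  refine ((hfin.union (Z.image g).finite_toSet).preimage hinjQ.injOn).subset ?_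
  rintro y ⟨⟨k, a, hy⟩, hbad⟩
  by_cases hyb : ∃ b ∈ Z, (y : K) = g b
  · right
    obtain ⟨b, hb, h⟩ := hyb
    exact Finset.mem_coe.2 (Finset.mem_image.2 ⟨b, hb, h.symm⟩)
  · left
    push Not at hyb
    have hint : IntN N (y : K) := by
      refine ⟨k, ?_⟩
      have h1 : ((N : K) ^ k * (y : K)) = ((a : ℤ) : K) := by
        have := congrArg (fun z : ℚ => (z : K)) hy
        push_cast at this
        exact this
      rw [h1]
      exact isIntegral_algebraMap (R := ℤ) (A := K) (x := a)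
    refine ⟨hint, fun v hv b hb => ?_⟩
    simp only [Set.mem_iUnion, not_exists] at hv
    exact hSv b hb v (fun h => hv b hb h) y (hyb b hb) hint hbad

end Run7.h383.PK
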